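import Mathlib

set_option autoImplicit false

/-!
A function of the first Baire class from the Cantor set to the Hilbert cube whose graph meets
every closed set with full projection in many points.
-/

namespace Pool.Agent.P8H81.DD

open Set TopologicalSpace Filter Topology

/-- The Cantor set. -/
abbrev C : Type := ℕ → Bool

/-- The Hilbert cube. -/
abbrev Q : Type := ℕ → unitInterval

theorem exists_emb : ∃ e : C → ℝ, Continuous e ∧ Function.Injective e := by
  refine ⟨fun x => (cantorSetHomeomorphNatToBool.symm x : ℝ), ?_, ?_⟩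
  · exact continuous_subtype_val.comp (Homeomorph.continuous _)
  · intro x y h
    exact (Homeomorph.injective _) (Subtype.ext h)

theorem exists_graph : ∃ (g : ℕ → C → Q) (f : C → Q),
    (∀ n x y, (∀ i < n, x i = y i) → g n x = g n y) ∧
    (∀ x, Tendsto (fun n => g n x) atTop (𝓝 (f x))) ∧
    (∀ L : Set (C × Q), IsClosed L → (∀ x, ∃ q, (x, q) ∈ L) →
      ∃ e : C → C, Function.Injective e ∧ ∀ d, (e d, f (e d)) ∈ L) := by
  classical
  obtain ⟨φ, hφc, hφs⟩ : ∃ φ : C → Q, Continuous φ ∧ Function.Surjective φ :=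
    ⟨cantorToHilbert, cantorToHilbert_continuous, cantorToHilbert_surjective⟩
  obtain ⟨e, hec, hei⟩ := exists_emb
  have hem : IsClosedEmbedding e := hec.isClosedEmbedding hei
  have hlm : ∀ A : Set C, ∃ t : C, IsClosed A → A.Nonempty → t ∈ A ∧ ∀ s ∈ A, e t ≤ e s := by
    intro A
    by_cases h : IsClosed A ∧ A.Nonempty
    · obtain ⟨t, ht, ht2⟩ := h.1.isCompact.exists_isMinOn h.2 hec.continuousOn
      exact ⟨t, fun _ _ => ⟨ht, fun s hs => ht2 hs⟩⟩
    · exact ⟨fun _ => false, fun h1 h2 => absurd ⟨h1, h2⟩ h⟩
  choose lm hlm using hlm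
  have hconv : ∀ A : ℕ → Set C, (∀ n, IsClosed (A n)) → (∀ n m, n ≤ m → A m ⊆ A n) →
      (∀ n, (A n).Nonempty) →
      ∃ t, Tendsto (fun n => lm (A n)) atTop (𝓝 t) ∧ ∀ n, t ∈ A n := by
    intro A hA hm hne
    have hmono : Monotone (fun n => e (lm (A n))) := by
      intro n m hnm
      exact (hlm (A n) (hA n) (hne n)).2 _ (hm n m hnm (hlm (A m) (hA m) (hne m)).1)
    have hbdd : BddAbove (range (fun n => e (lm (A n)))) := by
      refine (isCompact_range hec).bddAbove.mono ?_
      rintro _ ⟨n, rfl⟩
      exact ⟨_, rfl⟩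
    have hl := tendsto_atTop_ciSup hmono hbdd
    set l := ⨆ n, e (lm (A n)) with hldef
    have hlr : l ∈ range e := hem.isClosed_range.mem_of_tendsto hl
      (Eventually.of_forall fun n => ⟨_, rfl⟩)
    obtain ⟨t, ht⟩ := hlr
    have htend : Tendsto (fun n => lm (A n)) atTop (𝓝 t) := by
      rw [hem.isEmbedding.tendsto_nhds_iff, ht]
      exact hl
    refine ⟨t, htend, fun n => (hA n).mem_of_tendsto htend ?_⟩
    filter_upwards [eventually_ge_atTop n] with m hnm
    exact hm n m hnm (hlm (A m) (hA m) (hne m)).1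
  obtain ⟨B, hBc, hBe, hB⟩ := exists_countable_basis (C × Q)
  have hBne : B.Nonempty := by
    by_contra hc
    rw [not_nonempty_iff_eq_empty] at hc
    have := hB.sUnion_eq
    rw [hc, sUnion_empty] at this
    have h2 : ((fun _ => false, fun _ => 0) : C × Q) ∈ (∅ : Set (C × Q)) := by
      rw [this]; trivial
    exact h2
  obtain ⟨O, hO⟩ := hBc.exists_eq_range hBne
  have hOo : ∀ n, IsOpen (O n) := fun n => hB.isOpen (by rw [hO]; exact ⟨n, rfl⟩)
  let K : Set (C × Q) := {p | ∀ n, p.1 (2 * n) = true → p ∉ O n}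
  have hK : IsClosed K := by
    have : K = ⋂ n, ({p : C × Q | p.1 (2 * n) = false} ∪ (O n)ᶜ) := by
      ext p
      simp only [K, mem_setOf_eq, mem_iInter, mem_union, mem_compl_iff]
      refine forall_congr' fun n => ?_
      cases h : p.1 (2 * n) <;> simp
    rw [this]
    refine isClosed_iInter fun n => IsClosed.union ?_ (hOo n).isClosed_compl
    exact isClosed_eq ((continuous_apply _).comp continuous_fst) continuous_const
  let Kt : Set (C × C) := {p | (p.1, φ p.2) ∈ K}
  have hKt : IsClosed Kt := hK.preimage (by fun_prop)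
  let A : ℕ → C → Set C := fun n x => {t | ∃ x' : C, (∀ i < n, x' i = x i) ∧ (x', t) ∈ Kt}
  have hA : ∀ n x, IsClosed (A n x) := by
    intro n x
    have h1 : A n x = Prod.snd '' ({p : C × C | ∀ i < n, p.1 i = x i} ∩ Kt) := by
      ext t
      constructor
      · rintro ⟨x', h1, h2⟩
        exact ⟨(x', t), ⟨h1, h2⟩, rfl⟩
      · rintro ⟨⟨x', t'⟩, ⟨h1, h2⟩, rfl⟩
        exact ⟨x', h1, h2⟩
    rw [h1]
    apply IsCompact.isClosed
    apply IsCompact.image _ continuous_snd
    apply IsClosed.isCompact
    apply IsClosed.inter _ hKt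
    have h2 : {p : C × C | ∀ i < n, p.1 i = x i} = ⋂ i, ⋂ (_ : i < n), {p : C × C | p.1 i = x i} := by
      ext p; simp
    rw [h2]
    exact isClosed_iInter fun i => isClosed_iInter fun _ =>
      isClosed_eq ((continuous_apply _).comp continuous_fst) continuous_const
  have hAm : ∀ x n m, n ≤ m → A m x ⊆ A n x := by
    rintro x n m hnm t ⟨x', h1, h2⟩
    exact ⟨x', fun i hi => h1 i (lt_of_lt_of_le hi hnm), h2⟩
  have hlim : ∀ x, ∃ y, Tendsto (fun n => φ (lm (A n x))) atTop (𝓝 y) ∧
      ((∀ n, (A n x).Nonempty) → (x, y) ∈ K) := by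
    intro x
    by_cases hne : ∀ n, (A n x).Nonempty
    · obtain ⟨t, ht1, ht2⟩ := hconv (fun n => A n x) (fun n => hA n x) (hAm x) hne
      refine ⟨φ t, (hφc.tendsto t).comp ht1, fun _ => ?_⟩
      choose x' hx1 hx2 using ht2
      have hx' : Tendsto x' atTop (𝓝 x) := by
        rw [tendsto_pi_nhds]
        intro i
        apply tendsto_const_nhds.congr'
        filter_upwards [eventually_gt_atTop i] with n hn
        exact (hx1 n i hn).symm
      have h3 : Tendsto (fun n => ((x' n, t) : C × C)) atTop (𝓝 (x, t)) :=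
        hx'.prodMk_nhds tendsto_const_nhds
      exact hKt.mem_of_tendsto h3 (Eventually.of_forall hx2)
    · push Not at hne
      obtain ⟨n, hn⟩ := hne
      refine ⟨φ (lm ∅), ?_, fun h => ?_⟩
      · apply tendsto_const_nhds.congr'
        filter_upwards [eventually_ge_atTop n] with m hm
        have : A m x = ∅ := by
          rw [eq_empty_iff_forall_notMem]
          intro t ht
          have := hAm x n m hm ht
          rw [hn] at this
          exact this
        rw [this]
      · have := h n
        rw [hn] at this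
        exact absurd this not_nonempty_empty
  choose f hf1 hf2 using hlim
  refine ⟨fun n x => φ (lm (A n x)), f, ?_, hf1, ?_⟩
  · intro n x y hxy
    have : A n x = A n y := by
      ext t
      constructor
      · rintro ⟨x', h1, h2⟩
        exact ⟨x', fun i hi => (h1 i hi).trans (hxy i hi), h2⟩
      · rintro ⟨x', h1, h2⟩
        exact ⟨x', fun i hi => (h1 i hi).trans (hxy i hi).symm, h2⟩
    show φ (lm (A n x)) = φ (lm (A n y))
    rw [this]
  · intro L hL hLf
    let E : C → C := fun d i => if i % 2 = 0 then decide (Disjoint (O (i / 2)) L) else d (i / 2)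
    have hE0 : ∀ d n, E d (2 * n) = decide (Disjoint (O n) L) := by
      intro d n
      simp only [E]
      rw [if_pos (by omega)]
      congr 3
      omega
    have hE1 : ∀ d n, E d (2 * n + 1) = d n := by
      intro d n
      simp only [E]
      rw [if_neg (by omega)]
      congr 1
      omega
    refine ⟨E, ?_, ?_⟩
    · intro d d' h
      funext n
      rw [← hE1 d n, ← hE1 d' n, h]
    · intro d
      have hKL : ∀ q, (E d, q) ∈ K ↔ (E d, q) ∈ L := by
        intro q
        constructor
        · intro h
          by_contra hc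
          obtain ⟨b, hb, hqb, hbL⟩ := hB.exists_subset_of_mem_open (show (E d, q) ∈ Lᶜ from hc)
            hL.isOpen_compl
          rw [hO] at hb
          obtain ⟨n, rfl⟩ := hb
          apply h n _ hqb
          show E d (2 * n) = true
          rw [hE0, decide_eq_true_iff]
          exact disjoint_left.2 fun z hz hz2 => hbL hz hz2
        · intro h n hn hc
          have hn' : E d (2 * n) = true := hn
          rw [hE0, decide_eq_true_iff] at hn'
          exact disjoint_left.1 hn' hc h
      rw [← hKL]
      apply hf2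
      intro n
      obtain ⟨q, hq⟩ := hLf (E d)
      obtain ⟨t, rfl⟩ := hφs q
      exact ⟨t, E d, fun _ _ => rfl, (hKL _).2 hq⟩

end Pool.Agent.P8H81.DD
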