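import Mathlib
import Pool.Agent.P8H81.DD.Gr

set_option autoImplicit false

/-!
The space attached to a family of convergent sequences of pairs.
-/

namespace Pool.Agent.P8H81.DD

open Set TopologicalSpace Filter Topology

/-- Points: two copies of the Cantor set. -/
abbrev Pt : Type := C × Bool

/-- The first place where two sequences differ. -/
noncomputable abbrev fd (x y : C) : ℕ := PiNat.firstDiff x y

theorem fd_agree {x y : C} {i : ℕ} (h : i < fd x y) : x i = y i :=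
  PiNat.apply_eq_of_lt_firstDiff h

theorem fd_ne {x y : C} (h : x ≠ y) : x (fd x y) ≠ y (fd x y) :=
  PiNat.apply_firstDiff_ne h

theorem fd_comm (x y : C) : fd x y = fd y x := PiNat.firstDiff_comm x y

theorem fd_eq {x y : C} {k : ℕ} (h : ∀ i < k, x i = y i) (hk : x k ≠ y k) : fd x y = k := by
  have hne : x ≠ y := fun h => hk (by rw [h])
  rcases lt_trichotomy (fd x y) k with h1 | h1 | h1
  · exact absurd (h _ h1) (fd_ne hne)
  · exact h1
  · exact absurd (fd_agree h1) hk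

theorem fd_ge {x y : C} {k : ℕ} (hne : x ≠ y) (h : ∀ i < k, x i = y i) : k ≤ fd x y := by
  by_contra hc
  exact fd_ne hne (h _ (by omega))

/-- The branch functions and their limit. -/
structure Gf (Z : Type) [MetricSpace Z] where
  g : ℕ → C → Z
  f : C → Z
  agree : ∀ n x y, (∀ i < n, x i = y i) → g n x = g n y
  lim : ∀ x, Tendsto (fun n => g n x) atTop (𝓝 (f x))

variable {Z : Type} [MetricSpace Z]

theorem Gf.exists_kap (G : Gf Z) (x : C) (N : ℕ) :
    ∃ k0, ∀ k, k0 ≤ k → dist (G.g k x) (G.f x) ≤ (1 / 2 : ℝ) ^ N := by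
  have h := (Metric.tendsto_atTop.1 (G.lim x)) ((1 / 2 : ℝ) ^ N) (by positivity)
  obtain ⟨k0, hk0⟩ := h
  exact ⟨k0, fun k hk => (hk0 k hk).le⟩

/-- Thresholds for the convergence. -/
noncomputable def Gf.kap (G : Gf Z) (x : C) (N : ℕ) : ℕ := (G.exists_kap x N).choose

theorem Gf.kap_spec (G : Gf Z) (x : C) (N k : ℕ) (h : G.kap x N ≤ k) :
    dist (G.g k x) (G.f x) ≤ (1 / 2 : ℝ) ^ N := (G.exists_kap x N).choose_spec k h

/-- Monotone thresholds. -/
noncomputable def Gf.th (G : Gf Z) (x : C) (N : ℕ) : ℕ :=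
  N + 1 + ∑ i ∈ Finset.range (N + 1), G.kap x i

theorem Gf.th_gt (G : Gf Z) (x : C) (N : ℕ) : N + 1 ≤ G.th x N := Nat.le_add_right _ _

theorem Gf.kap_le_th (G : Gf Z) (x : C) (N : ℕ) : G.kap x N ≤ G.th x N := by
  have : G.kap x N ≤ ∑ i ∈ Finset.range (N + 1), G.kap x i :=
    Finset.single_le_sum (f := fun i => G.kap x i) (fun _ _ => Nat.zero_le _)
      (Finset.self_mem_range_succ N)
  unfold Gf.th
  omega

theorem Gf.th_mono (G : Gf Z) (x : C) {N N' : ℕ} (h : N ≤ N') : G.th x N ≤ G.th x N' := by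
  have : ∑ i ∈ Finset.range (N + 1), G.kap x i ≤ ∑ i ∈ Finset.range (N' + 1), G.kap x i :=
    Finset.sum_le_sum_of_subset (Finset.range_mono (by omega))
  unfold Gf.th
  omega

open Classical in
/-- The function on pairs of points. -/
noncomputable def Gf.F (G : Gf Z) (a b : Pt) : Z :=
  if a.2 = b.2 then G.f (fun _ => false)
  else if a.1 = b.1 then G.f a.1 else G.g (fd a.1 b.1) a.1

theorem Gf.F_same (G : Gf Z) {a b : Pt} (h : a.2 = b.2) : G.F a b = G.f (fun _ => false) := by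
  unfold Gf.F
  rw [if_pos h]

theorem Gf.F_twin (G : Gf Z) {a b : Pt} (h : a.2 ≠ b.2) (h1 : a.1 = b.1) : G.F a b = G.f a.1 := by
  unfold Gf.F
  rw [if_neg h, if_pos h1]

theorem Gf.F_diff (G : Gf Z) {a b : Pt} (h : a.2 ≠ b.2) (h1 : a.1 ≠ b.1) :
    G.F a b = G.g (fd a.1 b.1) a.1 := by
  unfold Gf.F
  rw [if_neg h, if_neg h1]

theorem Gf.F_symm (G : Gf Z) (a b : Pt) : G.F a b = G.F b a := by
  by_cases h : a.2 = b.2
  · rw [G.F_same h, G.F_same h.symm]
  · by_cases h1 : a.1 = b.1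
    · rw [G.F_twin h h1, G.F_twin (Ne.symm h) h1.symm, h1]
    · rw [G.F_diff h h1, G.F_diff (Ne.symm h) (Ne.symm h1), fd_comm b.1 a.1]
      exact G.agree _ _ _ fun i hi => fd_agree hi

/-- The combinatorial data. -/
structure Dat (G : Gf Z) where
  ι : Type
  lt : ι → ι → Prop
  wf : WellFounded lt
  c : ι → Pt × Pt
  u : ι → ℕ → Pt × Pt
  uniq : ∀ s t x, (x = (c s).1.1 ∨ x = (c s).2.1) → (x = (c t).1.1 ∨ x = (c t).2.1) → s = t
  low : ∀ t n x s, (x = (u t n).1.1 ∨ x = (u t n).2.1) → (x = (c s).1.1 ∨ x = (c s).2.1) → lt s t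
  sh1 : ∀ t n, (u t n).1.2 = (c t).1.2
  sh2 : ∀ t n, (u t n).2.2 = (c t).2.2
  inc : ∀ t n l, n < l →
    max (fd (u t n).1.1 (c t).1.1) (fd (u t n).2.1 (c t).2.1) <
      min (fd (u t l).1.1 (c t).1.1) (fd (u t l).2.1 (c t).2.1)
  close : ∀ t n, dist (G.F (u t n).1 (u t n).2) (G.F (c t).1 (c t).2) ≤ (1 / 2 : ℝ) ^ n

variable {G : Gf Z} (D : Dat G)

theorem Dat.ge1 (t : D.ι) (n : ℕ) :
    n ≤ min (fd (D.u t n).1.1 (D.c t).1.1) (fd (D.u t n).2.1 (D.c t).2.1) := by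
  induction n with
  | zero => exact Nat.zero_le _
  | succ n ih =>
    have := D.inc t n (n + 1) (Nat.lt_succ_self n)
    have h2 : min (fd (D.u t n).1.1 (D.c t).1.1) (fd (D.u t n).2.1 (D.c t).2.1) ≤
      max (fd (D.u t n).1.1 (D.c t).1.1) (fd (D.u t n).2.1 (D.c t).2.1) := min_le_max
    omega

theorem Dat.ne1 (t : D.ι) (n : ℕ) : (D.u t n).1.1 ≠ (D.c t).1.1 := fun h =>
  D.wf.irrefl.irrefl t (D.low t n _ t (Or.inl rfl) (Or.inl h))

theorem Dat.ne2 (t : D.ι) (n : ℕ) : (D.u t n).2.1 ≠ (D.c t).2.1 := fun h =>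
  D.wf.irrefl.irrefl t (D.low t n _ t (Or.inr rfl) (Or.inr h))

/-- The size index of the `n`-th piece. -/
noncomputable def Dat.M (t : D.ι) (n : ℕ) : ℕ :=
  n + (fd (D.u t n).1.1 (D.c t).1.1 + 1) + (fd (D.u t n).2.1 (D.c t).2.1 + 1) +
    (fd (D.u t n).1.1 (D.u t n).2.1 + 1)

/-- The pieces attached to a point. -/
def Dat.St (p : Pt) (n : ℕ) (y : Pt) (m : ℕ) : Prop :=
  ∃ t, m = D.M t n ∧ ((p = (D.c t).1 ∧ y = (D.u t n).1) ∨ (p = (D.c t).2 ∧ y = (D.u t n).2))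

/-- Membership in the basic neighbourhoods. -/
inductive Dat.InV : Pt → ℕ → Pt → Prop
  | refl (p : Pt) (N : ℕ) : Dat.InV p N p
  | step (p : Pt) (N n : ℕ) (y : Pt) (m : ℕ) (z : Pt) : G.th p.1 N ≤ n → D.St p n y m →
      Dat.InV y m z → Dat.InV p N z

variable {D}

theorem St_sheet {p y : Pt} {n m : ℕ} (h : D.St p n y m) : y.2 = p.2 := by
  obtain ⟨t, _, (⟨rfl, rfl⟩ | ⟨rfl, rfl⟩)⟩ := h
  · exact D.sh1 t n
  · exact D.sh2 t n

theorem St_ne {p y : Pt} {n m : ℕ} (h : D.St p n y m) : y.1 ≠ p.1 := by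
  obtain ⟨t, _, (⟨rfl, rfl⟩ | ⟨rfl, rfl⟩)⟩ := h
  · exact D.ne1 t n
  · exact D.ne2 t n

theorem St_ge {p y : Pt} {n m : ℕ} (h : D.St p n y m) : n ≤ fd y.1 p.1 := by
  obtain ⟨t, _, (⟨rfl, rfl⟩ | ⟨rfl, rfl⟩)⟩ := h
  · exact (D.ge1 t n).trans (min_le_left _ _)
  · exact (D.ge1 t n).trans (min_le_right _ _)

theorem St_lt {p y : Pt} {n m : ℕ} (h : D.St p n y m) : fd y.1 p.1 < m := by
  obtain ⟨t, rfl, (⟨rfl, rfl⟩ | ⟨rfl, rfl⟩)⟩ := h
  · unfold Dat.M; omega
  · unfold Dat.M; omega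

theorem St_le {p y : Pt} {n m : ℕ} (h : D.St p n y m) : n ≤ m := (St_ge h).trans (St_lt h).le

theorem InV_sheet {p z : Pt} {N : ℕ} (h : D.InV p N z) : z.2 = p.2 := by
  induction h with
  | refl p N => rfl
  | step p N n y m z hn hs _ ih => exact ih.trans (St_sheet hs)

theorem InV_agree {p z : Pt} {N : ℕ} (h : D.InV p N z) : ∀ i < N, z.1 i = p.1 i := by
  induction h with
  | refl p N => intro i _; rfl
  | step p N n y m z hn hs _ ih =>
    intro i hi
    have h1 := St_ge hs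
    have h2 := St_lt hs
    have h3 := G.th_gt p.1 N
    rw [ih i (by omega)]
    exact fd_agree (by omega)

theorem step_ne {p y z : Pt} {n m : ℕ} (hs : D.St p n y m) (h : D.InV y m z) : z.1 ≠ p.1 := by
  intro hc
  have h1 := InV_agree h _ (St_lt hs)
  rw [hc] at h1
  exact fd_ne (St_ne hs) h1.symm

theorem step_fd {p y z : Pt} {n m : ℕ} (hs : D.St p n y m) (h : D.InV y m z) :
    fd z.1 p.1 = fd y.1 p.1 := by
  apply fd_eq
  · intro i hi
    rw [InV_agree h i (hi.trans (St_lt hs))]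
    exact fd_agree hi
  · rw [InV_agree h _ (St_lt hs)]
    exact fd_ne (St_ne hs)

theorem InV_mono {p z : Pt} {N N' : ℕ} (hN : N' ≤ N) (h : D.InV p N z) : D.InV p N' z := by
  cases h with
  | refl => exact Dat.InV.refl _ _
  | step _ _ n y m _ hn hs h => exact Dat.InV.step _ _ n y m _ ((G.th_mono _ hN).trans hn) hs h

theorem InV_open {p z : Pt} {N : ℕ} (h : D.InV p N z) :
    ∃ N', ∀ z', D.InV z N' z' → D.InV p N z' := by
  induction h with
  | refl p N => exact ⟨N, fun _ h => h⟩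
  | step p N n y m z hn hs _ ih =>
    obtain ⟨N', hN'⟩ := ih
    exact ⟨N', fun z' hz' => Dat.InV.step _ _ n y m _ hn hs (hN' z' hz')⟩

variable (D)

/-- The space. -/
def Y (_ : Dat G) : Type := Pt

instance : TopologicalSpace (Y D) where
  IsOpen U := ∀ p ∈ U, ∃ N, ∀ z, D.InV p N z → z ∈ U
  isOpen_univ := fun p _ => ⟨0, fun _ _ => trivial⟩
  isOpen_inter := by
    intro U V hU hV p hp
    obtain ⟨N, hN⟩ := hU p hp.1
    obtain ⟨N', hN'⟩ := hV p hp.2
    exact ⟨max N N', fun z hz => ⟨hN z (InV_mono (le_max_left _ _) hz),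
      hN' z (InV_mono (le_max_right _ _) hz)⟩⟩
  isOpen_sUnion := by
    rintro S hS p ⟨U, hU, hp⟩
    obtain ⟨N, hN⟩ := hS U hU p hp
    exact ⟨N, fun z hz => ⟨U, hU, hN z hz⟩⟩

/-- Basic neighbourhoods. -/
def Dat.V (p : Y D) (N : ℕ) : Set (Y D) := {z | D.InV p N z}

variable {D}

theorem isOpen_iff_V {U : Set (Y D)} : IsOpen U ↔ ∀ p ∈ U, ∃ N, D.V p N ⊆ U := Iff.rfl

theorem isOpen_V (p : Y D) (N : ℕ) : IsOpen (D.V p N) := fun _ hz => InV_open hz

theorem mem_V (p : Y D) (N : ℕ) : p ∈ D.V p N := Dat.InV.refl _ _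

theorem V_mono (p : Y D) {N N' : ℕ} (h : N' ≤ N) : D.V p N ⊆ D.V p N' := fun _ hz => InV_mono h hz

theorem nhds_basis (p : Y D) : (𝓝 p).HasBasis (fun _ : ℕ => True) (fun N => D.V p N) := by
  refine ⟨fun U => ?_⟩
  constructor
  · intro hU
    obtain ⟨O, hOU, hO, hp⟩ := mem_nhds_iff.1 hU
    obtain ⟨N, hN⟩ := isOpen_iff_V.1 hO p hp
    exact ⟨N, trivial, hN.trans hOU⟩
  · rintro ⟨N, _, hN⟩
    exact mem_nhds_iff.2 ⟨D.V p N, hN, isOpen_V p N, mem_V p N⟩

/-- The descent relation. -/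
def Dat.R (D : Dat G) (y p : Pt) : Prop := ∃ n m, D.St p n y m

theorem wf_R : WellFounded D.R := by
  have key : ∀ t : D.ι, ∀ p : Pt, (p.1 = (D.c t).1.1 ∨ p.1 = (D.c t).2.1) → Acc D.R p := by
    intro t
    induction t using D.wf.induction with
    | _ t ih =>
      intro p hp
      constructor
      rintro y ⟨n, m, t', hm, ht'⟩
      have htt' : t' = t := by
        apply D.uniq t' t p.1 _ hp
        rcases ht' with ⟨rfl, _⟩ | ⟨rfl, _⟩
        · exact Or.inl rfl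
        · exact Or.inr rfl
      subst htt'
      have hy : y.1 = (D.u t' n).1.1 ∨ y.1 = (D.u t' n).2.1 := by
        rcases ht' with ⟨_, rfl⟩ | ⟨_, rfl⟩
        · exact Or.inl rfl
        · exact Or.inr rfl
      by_cases hs : ∃ s, y.1 = (D.c s).1.1 ∨ y.1 = (D.c s).2.1
      · obtain ⟨s, hs⟩ := hs
        exact ih s (D.low t' n y.1 s hy hs) y hs
      · constructor
        rintro z ⟨n', m', s, _, (⟨h, _⟩ | ⟨h, _⟩)⟩
        · exact absurd ⟨s, Or.inl (by rw [h])⟩ hs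
        · exact absurd ⟨s, Or.inr (by rw [h])⟩ hs
  constructor
  intro p
  constructor
  rintro y ⟨n, m, hs⟩
  have hR : D.R y p := ⟨n, m, hs⟩
  obtain ⟨t, _, ht⟩ := hs
  have : Acc D.R p := by
    apply key t p
    rcases ht with ⟨rfl, _⟩ | ⟨rfl, _⟩
    · exact Or.inl rfl
    · exact Or.inr rfl
  exact this.inv hR

theorem disj_of_fd {p z : Pt} (hne : z.1 ≠ p.1) {q : Pt} {N : ℕ} (h : D.InV z N q)
    (hN : fd z.1 p.1 < N) : fd q.1 p.1 = fd z.1 p.1 ∧ q.1 ≠ p.1 := by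
  have h1 : q.1 (fd z.1 p.1) ≠ p.1 (fd z.1 p.1) := by
    rw [InV_agree h _ hN]
    exact fd_ne hne
  refine ⟨fd_eq ?_ h1, fun hc => h1 (by rw [hc])⟩
  intro i hi
  rw [InV_agree h i (hi.trans hN)]
  exact fd_agree hi

theorem St_unique {p y y' : Pt} {n n' m m' : ℕ} (h : D.St p n y m) (h' : D.St p n' y' m')
    (hf : fd y.1 p.1 = fd y'.1 p.1) : n = n' := by
  obtain ⟨t, _, ht⟩ := h
  obtain ⟨t', _, ht'⟩ := h'
  have htt' : t = t' := by
    apply D.uniq t t' p.1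
    · rcases ht with ⟨rfl, _⟩ | ⟨rfl, _⟩
      · exact Or.inl rfl
      · exact Or.inr rfl
    · rcases ht' with ⟨rfl, _⟩ | ⟨rfl, _⟩
      · exact Or.inl rfl
      · exact Or.inr rfl
  subst htt'
  have e1 : fd y.1 p.1 = fd (D.u t n).1.1 (D.c t).1.1 ∨ fd y.1 p.1 = fd (D.u t n).2.1 (D.c t).2.1 := by
    rcases ht with ⟨rfl, rfl⟩ | ⟨rfl, rfl⟩
    · exact Or.inl rfl
    · exact Or.inr rfl
  have e2 : fd y'.1 p.1 = fd (D.u t n').1.1 (D.c t).1.1 ∨
      fd y'.1 p.1 = fd (D.u t n').2.1 (D.c t).2.1 := by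
    rcases ht' with ⟨rfl, rfl⟩ | ⟨rfl, rfl⟩
    · exact Or.inl rfl
    · exact Or.inr rfl
  rcases lt_trichotomy n n' with h | h | h
  · have := D.inc t n n' h
    rw [max_lt_iff, lt_min_iff, lt_min_iff] at this
    omega
  · exact h
  · have := D.inc t n' n h
    rw [max_lt_iff, lt_min_iff, lt_min_iff] at this
    omega

theorem St_finite (p : Pt) (k : ℕ) : {w : Pt × ℕ | ∃ n, D.St p n w.1 w.2 ∧ fd w.1.1 p.1 = k}.Finite := by
  classical
  by_cases h : ∃ n y m, D.St p n y m ∧ fd y.1 p.1 = k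
  · obtain ⟨n, y, m, hs, hk⟩ := h
    obtain ⟨t, hm, ht⟩ := hs
    refine ((Set.finite_singleton ((D.u t n).1, D.M t n)).union
      (Set.finite_singleton ((D.u t n).2, D.M t n))).subset ?_
    rintro ⟨y', m'⟩ ⟨n', hs', hk'⟩
    have hnn : n = n' := St_unique ⟨t, hm, ht⟩ hs' (by rw [hk]; exact hk'.symm)
    subst hnn
    obtain ⟨t', hm', ht'⟩ := hs'
    have htt' : t = t' := by
      apply D.uniq t t' p.1
      · rcases ht with ⟨rfl, _⟩ | ⟨rfl, _⟩
        · exact Or.inl rfl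
        · exact Or.inr rfl
      · rcases ht' with ⟨rfl, _⟩ | ⟨rfl, _⟩
        · exact Or.inl rfl
        · exact Or.inr rfl
    subst htt'
    rcases ht' with ⟨_, h2⟩ | ⟨_, h2⟩
    · left
      exact Prod.ext h2 hm'
    · right
      exact Prod.ext h2 hm'
  · convert Set.finite_empty
    rw [eq_empty_iff_forall_notMem]
    rintro ⟨y, m⟩ ⟨n, hs, hk⟩
    exact h ⟨n, y, m, hs, hk⟩

theorem closed_aux (p : Pt) : ∀ N z, ¬ D.InV p N z → ∃ N', ∀ q, D.InV z N' q → ¬ D.InV p N q := by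
  induction p using (wf_R (D := D)).induction with
  | _ p ih =>
    intro N z hz
    by_cases h2 : z.2 = p.2
    swap
    · refine ⟨0, fun q hq hc => h2 ?_⟩
      rw [← InV_sheet hq, InV_sheet hc]
    have hne : z.1 ≠ p.1 := by
      intro h1
      apply hz
      have : z = p := Prod.ext h1 h2
      rw [this]
      exact Dat.InV.refl _ _
    set k := fd z.1 p.1 with hk
    have hfin := St_finite (D := D) p k
    have hex : ∀ w : Pt × ℕ, ∃ N', (∃ n, G.th p.1 N ≤ n ∧ D.St p n w.1 w.2 ∧ fd w.1.1 p.1 = k) →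
        ∀ q, D.InV z N' q → ¬ D.InV w.1 w.2 q := by
      rintro ⟨y, m⟩
      by_cases h : ∃ n, G.th p.1 N ≤ n ∧ D.St p n y m ∧ fd y.1 p.1 = k
      · obtain ⟨n, hn, hs, hky⟩ := h
        obtain ⟨N', hN'⟩ := ih y ⟨n, m, hs⟩ m z (fun hc => hz (Dat.InV.step _ _ n y m _ hn hs hc))
        exact ⟨N', fun _ => hN'⟩
      · exact ⟨0, fun hc => absurd hc h⟩
    choose N' hN' using hex
    refine ⟨k + 1 + ∑ w ∈ hfin.toFinset, N' w, fun q hq hc => ?_⟩
    have hq2 := disj_of_fd hne (N := k + 1) (InV_mono (by omega) hq) (Nat.lt_succ_self k)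
    cases hc with
    | refl => exact hq2.2 rfl
    | step _ _ n y m _ hn hs h =>
      have hfy : fd y.1 p.1 = k := by
        rw [← step_fd hs h]
        exact hq2.1
      have hmem : ((y, m) : Pt × ℕ) ∈ hfin.toFinset := by
        rw [Set.Finite.mem_toFinset]
        exact ⟨n, hs, hfy⟩
      have hle : N' (y, m) ≤ ∑ w ∈ hfin.toFinset, N' w :=
        Finset.single_le_sum (f := N') (fun _ _ => Nat.zero_le _) hmem
      exact hN' (y, m) ⟨n, hn, hs, hfy⟩ q (InV_mono (by omega) hq) h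

theorem isClosed_V (p : Y D) (N : ℕ) : IsClosed (D.V p N) := by
  rw [← isOpen_compl_iff, isOpen_iff_V]
  intro z hz
  obtain ⟨N', hN'⟩ := closed_aux p N z hz
  exact ⟨N', fun q hq => hN' q hq⟩

theorem isClopen_V (p : Y D) (N : ℕ) : IsClopen (D.V p N) := ⟨isClosed_V p N, isOpen_V p N⟩

end Pool.Agent.P8H81.DD
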