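import Mathlib
import Pool.Agent.P8H81.DD.Sp

set_option autoImplicit false

/-!
Continuity of the function on pairs.
-/

namespace Pool.Agent.P8H81.DD

open Set TopologicalSpace Filter Topology

variable {Z : Type} [MetricSpace Z] {G : Gf Z} {D : Dat G}

theorem fd_min {a b x : C} (ha : a ≠ x) (hb : b ≠ x) (h : fd a x ≠ fd b x) :
    a ≠ b ∧ fd a b = min (fd a x) (fd b x) := by
  rcases lt_or_gt_of_ne h with h1 | h1
  · have h2 : a (fd a x) ≠ b (fd a x) := by
      rw [fd_agree (x := b) (y := x) h1]
      exact fd_ne ha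
    rw [min_eq_left h1.le]
    refine ⟨fun hc => h2 (by rw [hc]), fd_eq ?_ h2⟩
    intro i hi
    rw [fd_agree (x := b) (y := x) (hi.trans h1)]
    exact fd_agree hi
  · have h2 : a (fd b x) ≠ b (fd b x) := by
      rw [fd_agree (x := a) (y := x) h1]
      exact (fd_ne hb).symm
    rw [min_eq_right h1.le]
    refine ⟨fun hc => h2 (by rw [hc]), fd_eq ?_ h2⟩
    intro i hi
    rw [fd_agree (x := a) (y := x) (hi.trans h1)]
    exact (fd_agree hi).symm

theorem pow_half_le {n m : ℕ} (h : n ≤ m) : (1 / 2 : ℝ) ^ m ≤ (1 / 2 : ℝ) ^ n :=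
  pow_le_pow_of_le_one (by norm_num) (by norm_num) h

theorem rate_aux {t : D.ι} {n : ℕ} {p p' y y' a b : Pt} {N : ℕ} (hN : N + 1 ≤ n)
    (h1 : p.1 = p'.1) (hc : dist (G.F y y') (G.F p p') ≤ (1 / 2 : ℝ) ^ n)
    (hsh : p.2 ≠ p'.2) (hy : y.2 = p.2) (hy' : y'.2 = p'.2) (m : ℕ) (hm : n ≤ m)
    (hm2 : fd y.1 y'.1 < m) (ha : D.InV y m a) (hb : D.InV y' m b)
    (ih : y.1 = y'.1 → dist (G.F a b) (G.f y.1) ≤ (1 / 2 : ℝ) ^ m) :
    dist (G.F a b) (G.f p.1) ≤ (1 / 2 : ℝ) ^ N := by
  have hyy : y.2 ≠ y'.2 := by rw [hy, hy']; exact hsh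
  have hab : a.2 ≠ b.2 := by rw [InV_sheet ha, InV_sheet hb]; exact hyy
  rw [G.F_twin hsh h1] at hc
  have key : dist (G.F a b) (G.F y y') ≤ (1 / 2 : ℝ) ^ n := by
    by_cases hyy1 : y.1 = y'.1
    · rw [G.F_twin hyy hyy1]
      exact (ih hyy1).trans (pow_half_le hm)
    · have h2 : a.1 (fd y.1 y'.1) ≠ b.1 (fd y.1 y'.1) := by
        rw [InV_agree ha _ hm2, InV_agree hb _ hm2]
        exact fd_ne hyy1
      have h3 : fd a.1 b.1 = fd y.1 y'.1 := by
        apply fd_eq _ h2
        intro i hi
        rw [InV_agree ha _ (hi.trans hm2), InV_agree hb _ (hi.trans hm2)]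
        exact fd_agree hi
      rw [G.F_diff hab (fun hc => h2 (by rw [hc])), G.F_diff hyy hyy1, h3,
        G.agree _ a.1 y.1 (fun i hi => InV_agree ha _ (hi.trans hm2)), dist_self]
      positivity
  calc dist (G.F a b) (G.f p.1) ≤ dist (G.F a b) (G.F y y') + dist (G.F y y') (G.f p.1) :=
        dist_triangle _ _ _
    _ ≤ (1 / 2 : ℝ) ^ n + (1 / 2 : ℝ) ^ n := add_le_add key hc
    _ ≤ (1 / 2 : ℝ) ^ (N + 1) + (1 / 2 : ℝ) ^ (N + 1) := add_le_add (pow_half_le hN) (pow_half_le hN)
    _ = (1 / 2 : ℝ) ^ N := by rw [pow_succ]; ring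

theorem rate (p : Pt) : ∀ (p' : Pt) (N : ℕ) (a b : Pt), p.1 = p'.1 → p.2 ≠ p'.2 →
    D.InV p N a → D.InV p' N b → dist (G.F a b) (G.f p.1) ≤ (1 / 2 : ℝ) ^ N := by
  induction p using (wf_R (D := D)).induction with
  | _ p ih =>
    intro p' N a b h1 h2 ha hb
    have hab : a.2 ≠ b.2 := by rw [InV_sheet ha, InV_sheet hb]; exact h2
    have hb' := hb
    cases ha with
    | refl =>
      cases hb with
      | refl =>
        rw [G.F_twin h2 h1, dist_self]
        positivity
      | step _ _ n y m _ hn hs h =>
        have hne := step_ne hs h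
        have hne' : p.1 ≠ b.1 := by rw [h1]; exact hne.symm
        rw [G.F_diff hab hne']
        have hk : fd p.1 b.1 = fd y.1 p'.1 := by rw [h1, fd_comm, step_fd hs h]
        rw [hk]
        apply G.kap_spec
        rw [h1]
        exact ((G.kap_le_th _ _).trans hn).trans (St_ge hs)
    | step _ _ n y m _ hn hs h =>
      have hne := step_ne hs h
      have hka := step_fd hs h
      cases hb with
      | refl =>
        have hne' : a.1 ≠ p'.1 := by rw [← h1]; exact hne
        rw [G.F_diff hab hne', ← h1]
        rw [G.agree (fd a.1 p.1) a.1 p.1 (fun i hi => fd_agree hi)]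
        apply G.kap_spec
        rw [hka]
        exact ((G.kap_le_th _ _).trans hn).trans (St_ge hs)
      | step _ _ n' y' m' _ hn' hs' h' =>
        have hneb := step_ne hs' h'
        have hkb := step_fd hs' h'
        by_cases hkk : fd a.1 p.1 = fd b.1 p.1
        swap
        · rw [← h1] at hneb hkb
          obtain ⟨hab1, hmin⟩ := fd_min hne hneb hkk
          rw [G.F_diff hab hab1, hmin,
            G.agree _ a.1 p.1 (fun i hi => fd_agree (lt_of_lt_of_le hi (min_le_left _ _)))]
          apply G.kap_spec
          rw [hka, hkb]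
          apply le_min
          · exact ((G.kap_le_th _ _).trans hn).trans (St_ge hs)
          · rw [← h1] at hn'
            have := St_ge hs'
            rw [← h1] at this
            exact ((G.kap_le_th _ _).trans hn').trans this
        · rw [hka] at hkk
          rw [← h1] at hkb
          rw [hkb] at hkk
          have hN : N + 1 ≤ n := (G.th_gt _ _).trans hn
          have hs0 := hs
          have hs0' := hs'
          obtain ⟨t, hm, ht⟩ := hs
          obtain ⟨t', hm', ht'⟩ := hs'
          have htt' : t = t' := by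
            apply D.uniq t t' p.1
            · rcases ht with ⟨rfl, _⟩ | ⟨rfl, _⟩
              · exact Or.inl rfl
              · exact Or.inr rfl
            · rw [h1]
              rcases ht' with ⟨rfl, _⟩ | ⟨rfl, _⟩
              · exact Or.inl rfl
              · exact Or.inr rfl
          subst htt'
          have e1 : fd y.1 p.1 = fd (D.u t n).1.1 (D.c t).1.1 ∨
              fd y.1 p.1 = fd (D.u t n).2.1 (D.c t).2.1 := by
            rcases ht with ⟨rfl, rfl⟩ | ⟨rfl, rfl⟩
            · exact Or.inl rfl
            · exact Or.inr rfl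
          have e2 : fd y'.1 p.1 = fd (D.u t n').1.1 (D.c t).1.1 ∨
              fd y'.1 p.1 = fd (D.u t n').2.1 (D.c t).2.1 := by
            rw [h1]
            rcases ht' with ⟨rfl, rfl⟩ | ⟨rfl, rfl⟩
            · exact Or.inl rfl
            · exact Or.inr rfl
          have hnn : n = n' := by
            rcases lt_trichotomy n n' with h | h | h
            · have := D.inc t n n' h
              rw [max_lt_iff, lt_min_iff, lt_min_iff] at this
              omega
            · exact h
            · have := D.inc t n' n h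
              rw [max_lt_iff, lt_min_iff, lt_min_iff] at this
              omega
          subst hnn
          have hmm : m = m' := hm.trans hm'.symm
          subst hmm
          have hnm : n ≤ m := St_le hs0
          rcases ht with ⟨hp, hy⟩ | ⟨hp, hy⟩ <;> rcases ht' with ⟨hp', hy'⟩ | ⟨hp', hy'⟩
          · exact absurd (by rw [hp, hp']) h2
          · have hc := D.close t n
            rw [← hy, ← hy', ← hp, ← hp'] at hc
            refine rate_aux (t := t) hN h1 hc h2 (St_sheet hs0) (St_sheet hs0') m hnm ?_ h h' ?_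
            · rw [hm, hy, hy']; unfold Dat.M; omega
            · intro hyy
              apply ih y ⟨n, m, hs0⟩ y' m a b hyy _ h h'
              rw [St_sheet hs0, St_sheet hs0']
              exact h2
          · have hc := D.close t n
            rw [← hy, ← hy', ← hp, ← hp', G.F_symm, G.F_symm p' p] at hc
            refine rate_aux (t := t) hN h1 hc h2 (St_sheet hs0) (St_sheet hs0') m hnm ?_ h h' ?_
            · rw [hm, hy, hy', fd_comm]; unfold Dat.M; omega
            · intro hyy
              apply ih y ⟨n, m, hs0⟩ y' m a b hyy _ h h'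
              rw [St_sheet hs0, St_sheet hs0']
              exact h2
          · exact absurd (by rw [hp, hp']) h2

theorem V_prod_mem (p p' : Y D) (N N' : ℕ) : D.V p N ×ˢ D.V p' N' ∈ 𝓝 (p, p') :=
  prod_mem_nhds ((isOpen_V p N).mem_nhds (mem_V p N)) ((isOpen_V p' N').mem_nhds (mem_V p' N'))

theorem continuous_F : Continuous (fun w : Y D × Y D => G.F w.1 w.2) := by
  rw [continuous_iff_continuousAt]
  rintro ⟨p, p'⟩
  by_cases hsh : p.2 = p'.2
  · have : (fun w : Y D × Y D => G.F w.1 w.2) =ᶠ[𝓝 (p, p')] fun _ => G.F p p' := by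
      filter_upwards [V_prod_mem p p' 0 0] with w hw
      have h1 : w.1.2 = w.2.2 := by
        rw [InV_sheet hw.1, InV_sheet hw.2]; exact hsh
      rw [G.F_same h1, G.F_same hsh]
    exact tendsto_const_nhds.congr' this.symm
  · by_cases h1 : p.1 = p'.1
    · rw [ContinuousAt, Metric.tendsto_nhds]
      intro ε hε
      obtain ⟨N, hN⟩ := exists_pow_lt_of_lt_one hε (show (1 / 2 : ℝ) < 1 by norm_num)
      filter_upwards [V_prod_mem p p' N N] with w hw
      rw [G.F_twin hsh h1]
      exact (rate p p' N w.1 w.2 h1 hsh hw.1 hw.2).trans_lt hN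
    · have : (fun w : Y D × Y D => G.F w.1 w.2) =ᶠ[𝓝 (p, p')] fun _ => G.F p p' := by
        filter_upwards [V_prod_mem p p' (fd p.1 p'.1 + 1) (fd p.1 p'.1 + 1)] with w hw
        have hs : w.1.2 ≠ w.2.2 := by
          rw [InV_sheet hw.1, InV_sheet hw.2]; exact hsh
        have h2 : w.1.1 (fd p.1 p'.1) ≠ w.2.1 (fd p.1 p'.1) := by
          rw [InV_agree hw.1 _ (Nat.lt_succ_self _), InV_agree hw.2 _ (Nat.lt_succ_self _)]
          exact fd_ne h1
        have h3 : fd w.1.1 w.2.1 = fd p.1 p'.1 := by
          apply fd_eq _ h2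
          intro i hi
          rw [InV_agree hw.1 _ (by omega), InV_agree hw.2 _ (by omega)]
          exact fd_agree hi
        rw [G.F_diff hs (fun hc => h2 (by rw [hc])), G.F_diff hsh h1, h3]
        exact G.agree _ _ _ fun i hi => InV_agree hw.1 _ (by omega)
      exact tendsto_const_nhds.congr' this.symm

/-- Comparison with the original topology. -/
def toPt (p : Y D) : Pt := p

theorem continuous_of_loc {β : Type*} [TopologicalSpace β] (h : Y D → β)
    (H : ∀ p, ∃ N, ∀ z ∈ D.V p N, h z = h p) : Continuous h := by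
  rw [continuous_iff_continuousAt]
  intro p
  obtain ⟨N, hN⟩ := H p
  apply tendsto_const_nhds.congr'
  filter_upwards [(isOpen_V p N).mem_nhds (mem_V p N)] with z hz
  exact (hN z hz).symm

theorem continuous_toPt : Continuous (toPt (D := D)) := by
  have h1 : Continuous (fun p : Y D => (toPt p).1) := by
    apply continuous_pi
    intro i
    apply continuous_of_loc
    intro p
    exact ⟨i + 1, fun z hz => InV_agree hz i (Nat.lt_succ_self i)⟩
  have h2 : Continuous (fun p : Y D => (toPt p).2) := by
    apply continuous_of_loc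
    intro p
    exact ⟨0, fun z hz => InV_sheet hz⟩
  exact h1.prodMk h2

instance : T2Space (Y D) :=
  T2Space.of_injective_continuous (f := toPt) (fun _ _ h => h) continuous_toPt

/-- The map defining the auxiliary metrizable topology on pairs. -/
noncomputable def Gf.io (G : Gf Z) (w : Pt × Pt) : (Pt × Pt) × Z := (w, G.F w.1 w.2)

theorem continuous_io : Continuous (fun w : Y D × Y D => G.io (toPt w.1, toPt w.2)) := by
  apply Continuous.prodMk
  · exact (continuous_toPt.comp continuous_fst).prodMk (continuous_toPt.comp continuous_snd)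
  · exact continuous_F

end Pool.Agent.P8H81.DD
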