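import Mathlib
import Pool.Agent.P8H81.DD.Ct

set_option autoImplicit false

/-!
The transfinite selection: one space which realises all the tasks.
-/

namespace Pool.Agent.P8H81.DD

open Set TopologicalSpace Filter Topology Cardinal

/-- Pairs of points. -/
abbrev PP : Type := Pt × Pt

/-- A task: countably many countable sets of pairs and a set of implications. -/
abbrev Task : Type := (ℕ → ℕ → Option PP) × (ℕ → ℕ → Prop)

/-- The `q`-th set of a task. -/
def hs (t : Task) (q : ℕ) : Set PP := {w | ∃ j, t.1 q j = some w}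

/-- The support of a task. -/
def sup (t : Task) : Set C := {x | ∃ q, ∃ w ∈ hs t q, x = w.1.1 ∨ x = w.2.1}

variable {Z : Type} [MetricSpace Z] (G : Gf Z)

/-- The closures of the sets of a task. -/
def KK (t : Task) : ℕ → Set PP
  | 0 => univ
  | (q + 1) => {w | G.io w ∈ closure (G.io '' hs t q)}

/-- The target of a task. -/
def TT (t : Task) : Set PP := {w | ∀ a b, t.2 a b → w ∈ KK G t a → w ∈ KK G t b}

/-- Large sets of pairs. -/
def Big (T : Set PP) : Prop :=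
  ∀ P : Set C, #P < 𝔠 → ∃ w ∈ T, w.1.1 ∉ P ∧ w.2.1 ∉ P

/-- The tasks that have to be treated. -/
def Good (t : Task) : Prop := Big (TT G t) ∧ t.2 0 1

theorem hs_countable (t : Task) (q : ℕ) : (hs t q).Countable := by
  have : hs t q ⊆ ⋃ j, {w | t.1 q j = some w} := by
    rintro w ⟨j, hj⟩
    exact mem_iUnion.2 ⟨j, hj⟩
  refine (countable_iUnion fun j => ?_).mono this
  apply Set.Subsingleton.countable
  intro a ha b hb
  have ha' : t.1 q j = some a := ha
  have hb' : t.1 q j = some b := hb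
  rw [ha'] at hb'
  exact Option.some.inj hb'

theorem sup_countable (t : Task) : (sup t).Countable := by
  have : sup t ⊆ ⋃ q, ((fun w : PP => w.1.1) '' hs t q ∪ (fun w : PP => w.2.1) '' hs t q) := by
    rintro x ⟨q, w, hw, (rfl | rfl)⟩
    · exact mem_iUnion.2 ⟨q, Or.inl ⟨w, hw, rfl⟩⟩
    · exact mem_iUnion.2 ⟨q, Or.inr ⟨w, hw, rfl⟩⟩
  exact (countable_iUnion fun q => ((hs_countable t q).image _).union
    ((hs_countable t q).image _)).mono this

theorem mk_C : #C = 𝔠 := by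
  simp [C]

theorem mk_Task : #Task ≤ 𝔠 := by
  have h1 : #PP = 𝔠 := by
    simp only [PP, Pt, Cardinal.mk_prod, Cardinal.lift_id, mk_C, Cardinal.mk_bool]
    rw [Cardinal.continuum_mul_ofNat, Cardinal.continuum_mul_self]
  have h2 : #(ℕ → ℕ → Option PP) = 𝔠 := by
    simp only [Cardinal.mk_pi, Cardinal.prod_const, Cardinal.lift_id, Cardinal.mk_option, h1,
      Cardinal.mk_nat]
    rw [Cardinal.add_one_eq Cardinal.aleph0_le_continuum, Cardinal.continuum_power_aleph0,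
      Cardinal.continuum_power_aleph0]
  have h3 : #(ℕ → ℕ → Prop) = 𝔠 := by
    simp only [Cardinal.mk_pi, Cardinal.prod_const, Cardinal.lift_id,
      Cardinal.mk_nat]
    simp
  simp only [Task, Cardinal.mk_prod, Cardinal.lift_id]
  rw [h2, h3, Cardinal.continuum_mul_self]

theorem mk_small {ι : Type} (hι : #ι < 𝔠) (A : ι → Set C) (hA : ∀ i, (A i).Countable) :
    #(⋃ i, A i : Set C) < 𝔠 := by
  refine Cardinal.mk_iUnion_le_sum_mk.trans_lt ?_
  have h1 : Cardinal.sum (fun i => #(A i)) ≤ Cardinal.sum (fun _ : ι => ℵ₀) :=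
    Cardinal.sum_le_sum _ _ fun i => Cardinal.le_aleph0_iff_set_countable.2 (hA i)
  refine h1.trans_lt ?_
  rw [Cardinal.sum_const']
  exact Cardinal.mul_lt_of_lt Cardinal.aleph0_le_continuum hι Cardinal.aleph0_lt_continuum

theorem selection : ∃ (lt : Task → Task → Prop) (c : Task → PP), WellFounded lt ∧
    (∀ s t, s ≠ t → lt s t ∨ lt t s) ∧
    ∀ t, Good G t → c t ∈ TT G t ∧
      (∀ s, s = t ∨ lt s t → (c t).1.1 ∉ sup s ∧ (c t).2.1 ∉ sup s) ∧
      (∀ s, lt s t → ∀ x, (x = (c s).1.1 ∨ x = (c s).2.1) → x ≠ (c t).1.1 ∧ x ≠ (c t).2.1) := by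
  classical
  obtain ⟨r, wo, hr⟩ := Cardinal.exists_ord_eq Task
  let P : (t : Task) → ((s : Task) → r s t → PP) → Set C := fun t ih =>
    ⋃ o : Option {s // r s t}, match o with
      | none => sup t
      | some s => sup s.1 ∪ {(ih s.1 s.2).1.1, (ih s.1 s.2).2.1}
  let step : (t : Task) → ((s : Task) → r s t → PP) → PP := fun t ih =>
    if h : ∃ w ∈ TT G t, w.1.1 ∉ P t ih ∧ w.2.1 ∉ P t ih then h.choose
    else ((fun _ => false, false), (fun _ => false, false))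
  have wf : WellFounded r := wo.wf
  let c : Task → PP := wf.fix step
  have hc : ∀ t, c t = step t (fun s _ => c s) := fun t => wf.fix_eq step t
  have hP : ∀ t, #(P t (fun s _ => c s)) < 𝔠 := by
    intro t
    apply mk_small
    · rw [Cardinal.mk_option]
      have h1 : #{s // r s t} < 𝔠 := by
        refine lt_of_lt_of_le ?_ mk_Task
        rw [← Ordinal.card_typein]
        exact Cardinal.card_typein_lt t hr
      exact Cardinal.add_lt_of_lt Cardinal.aleph0_le_continuum h1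
        (Cardinal.one_lt_aleph0.trans Cardinal.aleph0_lt_continuum)
    · rintro (_ | s)
      · exact sup_countable t
      · exact (sup_countable s.1).union ((Set.countable_singleton _).insert _)
  have hmem : ∀ t, Good G t → c t ∈ TT G t ∧ (c t).1.1 ∉ P t (fun s _ => c s) ∧
      (c t).2.1 ∉ P t (fun s _ => c s) := by
    intro t ht
    have h := ht.1 _ (hP t)
    have h2 : c t = h.choose := by
      rw [hc t]
      simp only [step]
      rw [dif_pos h]
    rw [h2]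
    exact h.choose_spec
  refine ⟨r, c, wf, ?_, ?_⟩
  · intro s t hst
    rcases trichotomous_of r s t with h | h | h
    · exact Or.inl h
    · exact absurd h hst
    · exact Or.inr h
  · intro t ht
    obtain ⟨h1, h2, h3⟩ := hmem t ht
    refine ⟨h1, ?_, ?_⟩
    · rintro s (rfl | hs)
      · exact ⟨fun h => h2 (mem_iUnion.2 ⟨none, h⟩), fun h => h3 (mem_iUnion.2 ⟨none, h⟩)⟩
      · exact ⟨fun h => h2 (mem_iUnion.2 ⟨some ⟨s, hs⟩, Or.inl h⟩),
          fun h => h3 (mem_iUnion.2 ⟨some ⟨s, hs⟩, Or.inl h⟩)⟩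
    · intro s hs x hx
      have hx2 : x ∈ P t (fun s _ => c s) := mem_iUnion.2 ⟨some ⟨s, hs⟩, Or.inr (by
        rcases hx with rfl | rfl
        · exact Or.inl rfl
        · exact Or.inr rfl)⟩
      exact ⟨fun h => h2 (h ▸ hx2), fun h => h3 (h ▸ hx2)⟩

variable {G}

theorem seq_step (w : PP) (H : Set PP) (hw : G.io w ∈ closure (G.io '' H))
    (hne : ∀ v ∈ H, v.1.1 ≠ w.1.1 ∧ v.2.1 ≠ w.2.1) (n B : ℕ) :
    ∃ v ∈ H, v.1.2 = w.1.2 ∧ v.2.2 = w.2.2 ∧ B < fd v.1.1 w.1.1 ∧ B < fd v.2.1 w.2.1 ∧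
      dist (G.F v.1 v.2) (G.F w.1 w.2) ≤ (1 / 2 : ℝ) ^ n := by
  let O : Set (PP × Z) := {z | z.1.1.2 = w.1.2 ∧ z.1.2.2 = w.2.2 ∧
    (∀ i ∈ Finset.range (B + 1), z.1.1.1 i = w.1.1 i) ∧
    (∀ i ∈ Finset.range (B + 1), z.1.2.1 i = w.2.1 i) ∧ dist z.2 (G.F w.1 w.2) < (1 / 2 : ℝ) ^ n}
  have hO : O ∈ 𝓝 (G.io w) := by
    have e1 : ∀ᶠ z in 𝓝 (G.io w), z.1.1.2 = w.1.2 := by
      have hc : Continuous (fun z : PP × Z => z.1.1.2) := by fun_prop
      have := hc.continuousAt.preimage_mem_nhds (x := G.io w)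
        ((isOpen_discrete {w.1.2}).mem_nhds rfl)
      exact this
    have e2 : ∀ᶠ z in 𝓝 (G.io w), z.1.2.2 = w.2.2 := by
      have hc : Continuous (fun z : PP × Z => z.1.2.2) := by fun_prop
      have := hc.continuousAt.preimage_mem_nhds (x := G.io w)
        ((isOpen_discrete {w.2.2}).mem_nhds rfl)
      exact this
    have e3 : ∀ᶠ z in 𝓝 (G.io w), ∀ i ∈ Finset.range (B + 1), z.1.1.1 i = w.1.1 i := by
      rw [Filter.eventually_all_finset]
      intro i _
      have hc : Continuous (fun z : PP × Z => z.1.1.1 i) := by fun_prop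
      have := hc.continuousAt.preimage_mem_nhds (x := G.io w)
        ((isOpen_discrete {w.1.1 i}).mem_nhds rfl)
      exact this
    have e4 : ∀ᶠ z in 𝓝 (G.io w), ∀ i ∈ Finset.range (B + 1), z.1.2.1 i = w.2.1 i := by
      rw [Filter.eventually_all_finset]
      intro i _
      have hc : Continuous (fun z : PP × Z => z.1.2.1 i) := by fun_prop
      have := hc.continuousAt.preimage_mem_nhds (x := G.io w)
        ((isOpen_discrete {w.2.1 i}).mem_nhds rfl)
      exact this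
    have e5 : ∀ᶠ z in 𝓝 (G.io w), dist z.2 (G.F w.1 w.2) < (1 / 2 : ℝ) ^ n := by
      have hc : Continuous (fun z : PP × Z => dist z.2 (G.F w.1 w.2)) := by fun_prop
      have h0 : dist (G.io w).2 (G.F w.1 w.2) < (1 / 2 : ℝ) ^ n := by
        show dist (G.F w.1 w.2) (G.F w.1 w.2) < _
        rw [dist_self]; positivity
      exact hc.continuousAt.eventually_lt continuousAt_const h0
    filter_upwards [e1, e2, e3, e4, e5] with z h1 h2 h3 h4 h5
    exact ⟨h1, h2, h3, h4, h5⟩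
  obtain ⟨_, hz, v, hv, rfl⟩ := mem_closure_iff_nhds.1 hw O hO
  obtain ⟨h1, h2, h3, h4, h5⟩ := hz
  refine ⟨v, hv, h1, h2, ?_, ?_, h5.le⟩
  · have := fd_ge (hne v hv).1 (k := B + 1) (fun i hi => h3 i (Finset.mem_range.2 hi))
    omega
  · have := fd_ge (hne v hv).2 (k := B + 1) (fun i hi => h4 i (Finset.mem_range.2 hi))
    omega

theorem seq_exists (w : PP) (H : ℕ → Set PP) (Q0 : Set ℕ) (h0 : 0 ∈ Q0)
    (hQ : ∀ q ∈ Q0, G.io w ∈ closure (G.io '' H q))
    (hne : ∀ q, ∀ v ∈ H q, v.1.1 ≠ w.1.1 ∧ v.2.1 ≠ w.2.1) :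
    ∃ u : ℕ → PP, (∀ n, ∃ q, u n ∈ H q) ∧ (∀ q ∈ Q0, ∀ N, ∃ n, N ≤ n ∧ u n ∈ H q) ∧
      (∀ n, (u n).1.2 = w.1.2) ∧ (∀ n, (u n).2.2 = w.2.2) ∧
      (∀ n l, n < l → max (fd (u n).1.1 w.1.1) (fd (u n).2.1 w.2.1) <
        min (fd (u l).1.1 w.1.1) (fd (u l).2.1 w.2.1)) ∧
      (∀ n, dist (G.F (u n).1 (u n).2) (G.F w.1 w.2) ≤ (1 / 2 : ℝ) ^ n) := by
  classical
  let qq : ℕ → ℕ := fun n => if (Nat.unpair n).1 ∈ Q0 then (Nat.unpair n).1 else 0
  have hqq : ∀ n, qq n ∈ Q0 := by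
    intro n
    simp only [qq]
    split_ifs with h
    · exact h
    · exact h0
  have hex : ∀ n B : ℕ, ∃ v ∈ H (qq n), v.1.2 = w.1.2 ∧ v.2.2 = w.2.2 ∧ B < fd v.1.1 w.1.1 ∧
      B < fd v.2.1 w.2.1 ∧ dist (G.F v.1 v.2) (G.F w.1 w.2) ≤ (1 / 2 : ℝ) ^ n :=
    fun n B => seq_step w (H (qq n)) (hQ _ (hqq n)) (hne _) n B
  choose nx hnx1 hnx2 hnx3 hnx4 hnx5 hnx6 using hex
  let mx : PP → ℕ := fun v => max (fd v.1.1 w.1.1) (fd v.2.1 w.2.1)
  let u : ℕ → PP := fun n => Nat.rec (nx 0 0) (fun n v => nx (n + 1) (mx v)) n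
  have hu : ∀ n, ∃ B, u n = nx n B := by
    intro n
    cases n with
    | zero => exact ⟨0, rfl⟩
    | succ n => exact ⟨mx (u n), rfl⟩
  have hstep : ∀ n, mx (u n) < min (fd (u (n + 1)).1.1 w.1.1) (fd (u (n + 1)).2.1 w.2.1) := by
    intro n
    have : u (n + 1) = nx (n + 1) (mx (u n)) := rfl
    rw [this]
    exact lt_min (hnx4 _ _) (hnx5 _ _)
  refine ⟨u, ?_, ?_, ?_, ?_, ?_, ?_⟩
  · intro n
    obtain ⟨B, hB⟩ := hu n
    rw [hB]
    exact ⟨_, hnx1 n B⟩
  · intro q hq N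
    refine ⟨Nat.pair q N, Nat.right_le_pair q N, ?_⟩
    obtain ⟨B, hB⟩ := hu (Nat.pair q N)
    rw [hB]
    have := hnx1 (Nat.pair q N) B
    simp only [qq, Nat.unpair_pair, if_pos hq] at this
    exact this
  · intro n
    obtain ⟨B, hB⟩ := hu n
    rw [hB]; exact hnx2 n B
  · intro n
    obtain ⟨B, hB⟩ := hu n
    rw [hB]; exact hnx3 n B
  · intro n l hnl
    show mx (u n) < _
    induction l with
    | zero => omega
    | succ l ih =>
      rcases Nat.lt_succ_iff_lt_or_eq.1 hnl with h | h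
      · have h1 := ih h
        have h2 := hstep l
        have h3 : min (fd (u l).1.1 w.1.1) (fd (u l).2.1 w.2.1) ≤ mx (u l) := min_le_max
        omega
      · rw [h]; exact hstep l
  · intro n
    obtain ⟨B, hB⟩ := hu n
    rw [hB]; exact hnx6 n B

/-- Pairs of points of the space, from pairs of points. -/
def op (D : Dat G) (w : PP) : Y D × Y D := w

variable (G)

theorem exists_space : ∃ D : Dat G, ∀ t, Good G t → ∃ w ∈ TT G t,
    ∀ q, G.io w ∈ closure (G.io '' hs t q) → op D w ∈ closure (op D '' hs t q) := by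
  classical
  obtain ⟨lt, c, wf, htri, hc⟩ := selection G
  have hseq : ∀ t : {t // Good G t}, ∃ u : ℕ → PP, (∀ n, ∃ q, u n ∈ hs t.1 q) ∧
      (∀ q, G.io (c t.1) ∈ closure (G.io '' hs t.1 q) → ∀ N, ∃ n, N ≤ n ∧ u n ∈ hs t.1 q) ∧
      (∀ n, (u n).1.2 = (c t.1).1.2) ∧ (∀ n, (u n).2.2 = (c t.1).2.2) ∧
      (∀ n l, n < l → max (fd (u n).1.1 (c t.1).1.1) (fd (u n).2.1 (c t.1).2.1) <
        min (fd (u l).1.1 (c t.1).1.1) (fd (u l).2.1 (c t.1).2.1)) ∧
      (∀ n, dist (G.F (u n).1 (u n).2) (G.F (c t.1).1 (c t.1).2) ≤ (1 / 2 : ℝ) ^ n) := by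
    rintro ⟨t, ht⟩
    obtain ⟨h1, h2, h3⟩ := hc t ht
    apply seq_exists (c t) (hs t) {q | G.io (c t) ∈ closure (G.io '' hs t q)}
    · exact h1 0 1 ht.2 trivial
    · exact fun q hq => hq
    · intro q v hv
      have h4 := h2 t (Or.inl rfl)
      exact ⟨fun h => h4.1 ⟨q, v, hv, Or.inl h.symm⟩, fun h => h4.2 ⟨q, v, hv, Or.inr h.symm⟩⟩
  choose u hu1 hu2 hu3 hu4 hu5 hu6 using hseq
  let D : Dat G :=
    { ι := {t // Good G t}
      lt := fun s t => lt s.1 t.1
      wf := InvImage.wf Subtype.val wf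
      c := fun t => c t.1
      u := u
      uniq := by
        intro s t x hs ht
        by_contra hst
        have hne : s.1 ≠ t.1 := fun h => hst (Subtype.ext h)
        rcases htri _ _ hne with h | h
        · have := (hc t.1 t.2).2.2 s.1 h x hs
          rcases ht with ht | ht
          · exact this.1 ht
          · exact this.2 ht
        · have := (hc s.1 s.2).2.2 t.1 h x ht
          rcases hs with hs | hs
          · exact this.1 hs
          · exact this.2 hs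
      low := by
        intro t n x s hx hs
        obtain ⟨q, hq⟩ := hu1 t n
        have hxs : x ∈ sup t.1 := ⟨q, u t n, hq, hx⟩
        by_contra hlt
        have h1 : t.1 = s.1 ∨ lt t.1 s.1 := by
          by_cases h : t.1 = s.1
          · exact Or.inl h
          · rcases htri _ _ h with h | h
            · exact Or.inr h
            · exact absurd h hlt
        have h2 := (hc s.1 s.2).2.1 t.1 h1
        rcases hs with hs | hs
        · exact h2.1 (hs ▸ hxs)
        · exact h2.2 (hs ▸ hxs)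
      sh1 := hu3
      sh2 := hu4
      inc := hu5
      close := hu6 }
  refine ⟨D, fun t ht => ⟨c t, (hc t ht).1, fun q hq => ?_⟩⟩
  let t' : D.ι := (⟨t, ht⟩ : {t // Good G t})
  rw [mem_closure_iff]
  intro O hO hw
  obtain ⟨O1, O2, hO1, hO2, hw1, hw2, hOO⟩ := isOpen_prod_iff.1 hO (c t).1 (c t).2 hw
  obtain ⟨N1, hN1⟩ := isOpen_iff_V.1 hO1 _ hw1
  obtain ⟨N2, hN2⟩ := isOpen_iff_V.1 hO2 _ hw2
  obtain ⟨n, hn, hun⟩ := hu2 ⟨t, ht⟩ q hq (max (G.th (c t).1.1 N1) (G.th (c t).2.1 N2))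
  refine ⟨op D (u ⟨t, ht⟩ n), hOO ⟨hN1 ?_, hN2 ?_⟩, mem_image_of_mem _ hun⟩
  · exact Dat.InV.step _ _ n _ (D.M t' n) _ ((le_max_left _ _).trans hn)
      ⟨t', rfl, Or.inl ⟨rfl, rfl⟩⟩ (Dat.InV.refl _ _)
  · exact Dat.InV.step _ _ n _ (D.M t' n) _ ((le_max_right _ _).trans hn)
      ⟨t', rfl, Or.inr ⟨rfl, rfl⟩⟩ (Dat.InV.refl _ _)

end Pool.Agent.P8H81.DD
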