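import Mathlib
import Pool.Agent.P8H81.DD.Sel

set_option autoImplicit false

/-!
Countable open covers have countable clopen refinements.
-/

namespace Pool.Agent.P8H81.DD

open Set TopologicalSpace Filter Topology
open scoped Cardinal

variable {Z : Type} [MetricSpace Z] {G : Gf Z}

theorem completely_metrizable_of_compact (α : Type*) [TopologicalSpace α] [MetrizableSpace α]
    [CompactSpace α] : IsCompletelyMetrizableSpace α := by
  let := metrizableSpaceMetric α
  have : CompleteSpace α := complete_of_compact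
  infer_instance

instance : PolishSpace Pt :=
  { (inferInstance : SecondCountableTopology Pt), completely_metrizable_of_compact Pt with }

/-- The space realises all good tasks. -/
def Captures (D : Dat G) : Prop := ∀ t, Good G t → ∃ w ∈ TT G t,
  ∀ q, G.io w ∈ closure (G.io '' hs t q) → op D w ∈ closure (op D '' hs t q)

theorem exists_enum {α : Type*} {S : Set α} (hS : S.Countable) :
    ∃ e : ℕ → Option α, {w | ∃ j, e j = some w} = S := by
  rcases S.eq_empty_or_nonempty with h | h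
  · refine ⟨fun _ => none, ?_⟩
    rw [h, eq_empty_iff_forall_notMem]
    rintro w ⟨j, hj⟩
    cases hj
  · obtain ⟨f, hf⟩ := hS.exists_eq_range h
    refine ⟨fun j => some (f j), ?_⟩
    rw [hf]
    ext w
    constructor
    · rintro ⟨j, hj⟩
      exact ⟨j, Option.some.inj hj⟩
    · rintro ⟨j, rfl⟩
      exact ⟨j, rfl⟩

theorem exists_task (H : ℕ → Set PP) (hH : ∀ q, (H q).Countable) (r : ℕ → ℕ → Prop) :
    ∃ t : Task, (∀ q, hs t q = H q) ∧ t.2 = r := by
  choose e he using fun q => exists_enum (hH q)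
  exact ⟨(e, r), he, rfl⟩

theorem dense_sub {α : Type*} [TopologicalSpace α] [SecondCountableTopology α] (A : Set α) :
    ∃ D ⊆ A, D.Countable ∧ A ⊆ closure D := by
  obtain ⟨S, hS, hSd⟩ := exists_countable_dense A
  refine ⟨Subtype.val '' S, ?_, hS.image _, ?_⟩
  · rintro _ ⟨x, _, rfl⟩
    exact x.2
  · intro x hx
    have := hSd ⟨x, hx⟩
    rwa [closure_subtype] at this

theorem big_of_inj {T : Set PP} (w : C → PP) (hw : ∀ s, w s ∈ T)
    (h1 : Function.Injective (fun s => (w s).1)) (h2 : Function.Injective (fun s => (w s).2)) :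
    Big T := by
  classical
  intro P hP
  by_contra hc
  push Not at hc
  have h3 : ∀ s, (w s).1.1 ∈ P ∨ (w s).2.1 ∈ P := by
    intro s
    by_cases h : (w s).1.1 ∈ P
    · exact Or.inl h
    · exact Or.inr (hc _ (hw s) h)
  let e : C → (P × Bool) ⊕ (P × Bool) := fun s =>
    if h : (w s).1.1 ∈ P then Sum.inl (⟨_, h⟩, (w s).1.2)
    else Sum.inr (⟨_, (h3 s).resolve_left h⟩, (w s).2.2)
  have he : Function.Injective e := by
    intro s s' hss
    by_cases h : (w s).1.1 ∈ P <;> by_cases h' : (w s').1.1 ∈ P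
    · simp only [e, dif_pos h, dif_pos h'] at hss
      have h5 := Sum.inl.inj hss
      rw [Prod.mk.injEq, Subtype.mk.injEq] at h5
      exact h1 (Prod.ext h5.1 h5.2)
    · simp only [e, dif_pos h, dif_neg h'] at hss
      cases hss
    · simp only [e, dif_neg h, dif_pos h'] at hss
      cases hss
    · simp only [e, dif_neg h, dif_neg h'] at hss
      have h5 := Sum.inr.inj hss
      rw [Prod.mk.injEq, Subtype.mk.injEq] at h5
      exact h2 (Prod.ext h5.1 h5.2)
  have h6 := Cardinal.mk_le_of_injective he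
  rw [mk_C] at h6
  have h7 : #(P × Bool) < 𝔠 := by
    rw [Cardinal.mk_prod, Cardinal.lift_id, Cardinal.lift_id, Cardinal.mk_bool]
    exact Cardinal.mul_lt_of_lt Cardinal.aleph0_le_continuum hP
      (Cardinal.ofNat_lt_aleph0.trans Cardinal.aleph0_lt_continuum)
  have h8 : #((P × Bool) ⊕ (P × Bool)) < 𝔠 := by
    rw [Cardinal.mk_sum, Cardinal.lift_id]
    exact Cardinal.add_lt_of_lt Cardinal.aleph0_le_continuum h7 h7
  exact absurd (h6.trans_lt h8) (lt_irrefl _)

theorem io_same (w : Pt) (S : Set Pt) (h : w ∈ closure S) :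
    G.io (w, w) ∈ closure (G.io '' ((fun d : Pt => (d, d)) '' S)) := by
  have h1 : (fun d : Pt => G.io (d, d)) = fun d => ((d, d), G.f (fun _ => false)) := by
    funext d
    show ((d, d), G.F d d) = _
    rw [G.F_same rfl]
  have hc : Continuous (fun d : Pt => G.io (d, d)) := by
    rw [h1]; fun_prop
  have h2 := image_closure_subset_closure_image hc (mem_image_of_mem _ h)
  rw [image_image]
  exact h2

variable {D : Dat G}

/-- From the original points to the space. -/
def ofPt (D : Dat G) (p : Pt) : Y D := p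

theorem clopen_cover (hD : Captures D) (U : ℕ → Set (Y D)) (hU : ∀ q, IsOpen (U q))
    (hc : ⋃ q, U q = univ) : ∃ O : ℕ → Set (Y D), (∀ j, IsClopen (O j)) ∧
      (∀ j, ∃ q, O j ⊆ U q) ∧ ⋃ j, O j = univ := by
  classical
  choose Dq hDq1 hDq2 hDq3 using fun q => dense_sub (α := Pt) {p : Pt | ofPt D p ∉ U q}
  let T : Set Pt := ⋂ q, closure (Dq q)
  have hTc : IsClosed T := isClosed_iInter fun q => isClosed_closure
  have hT : T.Countable := by
    by_contra hunc
    obtain ⟨e, heT, _, he⟩ := hTc.exists_nat_bool_injection_of_not_countable hunc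
    obtain ⟨t, ht1, ht2⟩ := exists_task (fun q => (fun d : Pt => (d, d)) '' Dq q)
      (fun q => (hDq2 q).image _) (fun a b => a = 0 ∧ 1 ≤ b)
    have hgood : Good G t := by
      refine ⟨?_, ?_⟩
      · apply big_of_inj (fun s => (e s, e s)) _ he he
        intro s a b hab _
        rw [ht2] at hab
        obtain ⟨_, hb⟩ := hab
        obtain ⟨b, rfl⟩ := Nat.exists_eq_succ_of_ne_zero (show b ≠ 0 by omega)
        show G.io (e s, e s) ∈ closure (G.io '' hs t b)
        rw [ht1]
        apply io_same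
        exact mem_iInter.1 (heT ⟨s, rfl⟩) b
      · rw [ht2]; exact ⟨rfl, le_rfl⟩
    obtain ⟨w, hw, hw2⟩ := hD t hgood
    have hwU : w.1 ∈ ⋃ q, U q := by
      rw [hc]; trivial
    obtain ⟨q, hq⟩ := mem_iUnion.1 hwU
    have h1 : G.io w ∈ closure (G.io '' hs t q) :=
      hw 0 (q + 1) (by rw [ht2]; exact ⟨rfl, by omega⟩) trivial
    have h2 := hw2 q h1
    have h3 : (op D w).1 ∈ closure ((U q)ᶜ) := by
      apply map_mem_closure continuous_fst h2
      rintro _ ⟨v, hv, rfl⟩
      rw [ht1] at hv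
      obtain ⟨d, hd, rfl⟩ := hv
      exact hDq1 q hd
    rw [(hU q).isClosed_compl.closure_eq] at h3
    exact h3 hq
  let S : Set (Set Pt) := {W | IsClopen W ∧ ∃ q, W ⊆ (closure (Dq q))ᶜ}
  obtain ⟨S0, hS0c, hS0S, hS0u⟩ := isOpen_sUnion_countable S (fun W hW => hW.1.isOpen)
  have hloc : ∀ p : Y D, ∃ N q, D.V p N ⊆ U q := by
    intro p
    have : p ∈ ⋃ q, U q := by rw [hc]; trivial
    obtain ⟨q, hq⟩ := mem_iUnion.1 this
    obtain ⟨N, hN⟩ := isOpen_iff_V.1 (hU q) p hq
    exact ⟨N, q, hN⟩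
  choose Np qp hNp using hloc
  let 𝒪 : Set (Set (Y D)) := (fun W => toPt ⁻¹' W) '' S0 ∪ (fun p : Pt => D.V p (Np p)) '' T
  have h𝒪c : 𝒪.Countable := (hS0c.image _).union (hT.image _)
  have h𝒪u : ∀ p : Y D, ∃ W ∈ 𝒪, p ∈ W := by
    intro p
    by_cases hp : toPt p ∈ T
    · exact ⟨_, Or.inr ⟨toPt p, hp, rfl⟩, mem_V _ _⟩
    · have : ∃ q, toPt p ∉ closure (Dq q) := by
        by_contra hcon
        push Not at hcon
        exact hp (mem_iInter.2 hcon)
      obtain ⟨q, hq⟩ := this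
      obtain ⟨W, hW, hpW, hWq⟩ := compact_exists_isClopen_in_isOpen
        (isClosed_closure (s := Dq q)).isOpen_compl hq
      have hpS : toPt p ∈ ⋃₀ S := ⟨W, ⟨hW, q, hWq⟩, hpW⟩
      rw [← hS0u] at hpS
      obtain ⟨W', hW', hpW'⟩ := hpS
      exact ⟨_, Or.inl ⟨W', hW', rfl⟩, hpW'⟩
  have hne : 𝒪.Nonempty := by
    obtain ⟨W, hW, _⟩ := h𝒪u (ofPt D (fun _ => false, false))
    exact ⟨W, hW⟩
  obtain ⟨O, hO⟩ := h𝒪c.exists_eq_range hne
  have hmem : ∀ j, O j ∈ 𝒪 := fun j => by rw [hO]; exact ⟨j, rfl⟩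
  refine ⟨O, ?_, ?_, ?_⟩
  · intro j
    rcases hmem j with ⟨W, hW, hWj⟩ | ⟨p, hp, hpj⟩
    · rw [← hWj]
      exact (hS0S hW).1.preimage continuous_toPt
    · rw [← hpj]
      exact isClopen_V _ _
  · intro j
    rcases hmem j with ⟨W, hW, hWj⟩ | ⟨p, hp, hpj⟩
    · rw [← hWj]
      obtain ⟨q, hq⟩ := (hS0S hW).2
      refine ⟨q, fun y hy => ?_⟩
      by_contra hcon
      exact hq hy (hDq3 q hcon)
    · rw [← hpj]
      exact ⟨qp p, hNp p⟩
  · rw [eq_univ_iff_forall]
    intro p
    obtain ⟨W, hW, hpW⟩ := h𝒪u p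
    rw [hO] at hW
    obtain ⟨j, rfl⟩ := hW
    exact mem_iUnion.2 ⟨j, hpW⟩

theorem clopen_partition (hD : Captures D) {m : ℕ} (U : Fin m → Set (Y D)) (hU : ∀ i, IsOpen (U i))
    (hc : ⋃ i, U i = univ) : ∃ V : Fin m → Set (Y D), (∀ i, IsClopen (V i)) ∧
      (∀ i, V i ⊆ U i) ∧ ⋃ i, V i = univ ∧ ∀ i j, i ≠ j → Disjoint (V i) (V j) := by
  classical
  let U' : ℕ → Set (Y D) := fun q => if h : q < m then U ⟨q, h⟩ else ∅
  have hU' : ∀ q, IsOpen (U' q) := by
    intro q
    by_cases h : q < m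
    · simp only [U', dif_pos h]; exact hU _
    · simp only [U', dif_neg h]; exact isOpen_empty
  have hU'c : ⋃ q, U' q = univ := by
    rw [eq_univ_iff_forall]
    intro p
    have : p ∈ ⋃ i, U i := by rw [hc]; trivial
    obtain ⟨i, hi⟩ := mem_iUnion.1 this
    refine mem_iUnion.2 ⟨i.1, ?_⟩
    simp only [U', dif_pos i.2]
    exact hi
  obtain ⟨O, hO1, hO2, hO3⟩ := clopen_cover hD U' hU' hU'c
  choose qq hqq using hO2
  let E : ℕ → Set (Y D) := fun j => O j \ ⋃ l ∈ Finset.range j, O l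
  have hE : ∀ j, IsClopen (E j) := by
    intro j
    apply (hO1 j).diff
    exact isClopen_biUnion_finset fun l _ => hO1 l
  have hEcov : ∀ p, ∃ j, p ∈ E j := by
    intro p
    have hex : ∃ j, p ∈ O j := by
      have : p ∈ ⋃ j, O j := by rw [hO3]; trivial
      exact mem_iUnion.1 this
    refine ⟨Nat.find hex, Nat.find_spec hex, ?_⟩
    simp only [mem_iUnion, Finset.mem_range, not_exists]
    intro l hl
    exact Nat.find_min hex hl
  have hEdis : ∀ p j l, p ∈ E j → p ∈ E l → j = l := by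
    intro p j l hj hl
    rcases lt_trichotomy j l with h | h | h
    · exfalso
      apply hl.2
      simp only [mem_iUnion, Finset.mem_range]
      exact ⟨j, h, hj.1⟩
    · exact h
    · exfalso
      apply hj.2
      simp only [mem_iUnion, Finset.mem_range]
      exact ⟨l, h, hl.1⟩
  let V : Fin m → Set (Y D) := fun i => ⋃ j ∈ {j | qq j = i.1}, E j
  have hVmem : ∀ p i, p ∈ V i ↔ ∃ j, qq j = i.1 ∧ p ∈ E j := by
    intro p i
    simp only [V, mem_iUnion, exists_prop]
    rfl
  refine ⟨V, ?_, ?_, ?_, ?_⟩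
  · intro i
    refine ⟨?_, isOpen_biUnion fun j _ => (hE j).isOpen⟩
    rw [← isOpen_compl_iff]
    have : (V i)ᶜ = ⋃ j ∈ {j | qq j ≠ i.1}, E j := by
      ext p
      obtain ⟨j, hj⟩ := hEcov p
      simp only [mem_compl_iff, hVmem, mem_iUnion, exists_prop]
      constructor
      · intro h
        exact ⟨j, fun hq => h ⟨j, hq, hj⟩, hj⟩
      · rintro ⟨l, hl, hpl⟩ ⟨l', hl', hpl'⟩
        rw [hEdis p l l' hpl hpl'] at hl
        exact hl hl'
    rw [this]
    exact isOpen_biUnion fun j _ => (hE j).isOpen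
  · intro i p hp
    obtain ⟨j, hj, hpj⟩ := (hVmem p i).1 hp
    have := hqq j hpj.1
    simp only [U', hj, dif_pos i.2] at this
    exact this
  · rw [eq_univ_iff_forall]
    intro p
    obtain ⟨j, hj⟩ := hEcov p
    have h1 := hqq j hj.1
    by_cases h : qq j < m
    · exact mem_iUnion.2 ⟨⟨qq j, h⟩, (hVmem _ _).2 ⟨j, rfl, hj⟩⟩
    · simp only [U', dif_neg h] at h1
      exact absurd h1 (notMem_empty _)
  · intro i j hij
    rw [disjoint_left]
    intro p hp hp'
    obtain ⟨l, hl, hpl⟩ := (hVmem p i).1 hp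
    obtain ⟨l', hl', hpl'⟩ := (hVmem p j).1 hp'
    rw [hEdis p l l' hpl hpl'] at hl
    exact hij (Fin.ext (hl.symm.trans hl'))

end Pool.Agent.P8H81.DD
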