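import Mathlib
import Pool.Agent.Helper520.CD.Myc
import Pool.Agent.P8H81.DD.Pc

set_option autoImplicit false

/-!
Small sets of pairs: a dichotomy.
-/

namespace Pool.Agent.P8H81.DD

open Set TopologicalSpace Filter Topology
open scoped Cardinal

variable {Z : Type} [MetricSpace Z] {G : Gf Z}

/-- Sets of pairs covered by countably many lines. -/
def LC (S : Set PP) : Prop := ∃ A : Set Pt, A.Countable ∧ ∀ w ∈ S, w.1 ∈ A ∨ w.2 ∈ A

theorem LC_mono {S S' : Set PP} (h : S ⊆ S') (h' : LC S') : LC S := by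
  obtain ⟨A, hA, hS⟩ := h'
  exact ⟨A, hA, fun w hw => hS w (h hw)⟩

theorem LC_iUnion {ι : Type*} [Countable ι] (S : ι → Set PP) (h : ∀ i, LC (S i)) :
    LC (⋃ i, S i) := by
  choose A hA hS using h
  refine ⟨⋃ i, A i, countable_iUnion hA, fun w hw => ?_⟩
  obtain ⟨i, hi⟩ := mem_iUnion.1 hw
  rcases hS i w hi with h | h
  · exact Or.inl (mem_iUnion.2 ⟨i, h⟩)
  · exact Or.inr (mem_iUnion.2 ⟨i, h⟩)

theorem LC_union {S S' : Set PP} (h : LC S) (h' : LC S') : LC (S ∪ S') := by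
  have := LC_iUnion (fun b : Bool => cond b S S') (by rintro (_ | _); exacts [h', h])
  refine LC_mono ?_ this
  rintro w (hw | hw)
  · exact mem_iUnion.2 ⟨true, hw⟩
  · exact mem_iUnion.2 ⟨false, hw⟩

theorem Big_mono {S S' : Set PP} (h : S ⊆ S') (h' : Big S) : Big S' := by
  intro P hP
  obtain ⟨w, hw, h1⟩ := h' P hP
  exact ⟨w, h hw, h1⟩

theorem big_or_LC_closed (T : Set PP) (hT : IsClosed T) : Big T ∨ LC T := by
  classical
  by_cases hLC : LC T
  · exact Or.inr hLC
  left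
  let 𝓑 := countableBasis PP
  have h𝓑 : IsTopologicalBasis 𝓑 := isBasis_countableBasis PP
  have h𝓑c : Countable 𝓑 := (countable_countableBasis PP).to_subtype
  let I := {b : 𝓑 // LC (T ∩ b.1)}
  let N : Set PP := ⋃ b : I, b.1.1
  have hNo : IsOpen N := isOpen_iUnion fun b => h𝓑.isOpen b.1.2
  have hTN : LC (T ∩ N) := by
    refine LC_mono ?_ (LC_iUnion (fun b : I => T ∩ b.1.1) (fun b => b.2))
    rintro w ⟨hw, hwN⟩
    obtain ⟨b, hb⟩ := mem_iUnion.1 hwN
    exact mem_iUnion.2 ⟨b, hw, hb⟩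
  let G0 : Set PP := T \ N
  have hG0c : IsClosed G0 := hT.sdiff hNo
  have hG0 : ∀ O : Set PP, IsOpen O → (O ∩ G0).Nonempty → ¬ LC (O ∩ G0) := by
    rintro O hO ⟨w, hwO, hwT, hwN⟩ hc
    obtain ⟨b, hb, hwb, hbO⟩ := h𝓑.exists_subset_of_mem_open hwO hO
    apply hwN
    refine mem_iUnion.2 ⟨⟨⟨b, hb⟩, ?_⟩, hwb⟩
    refine LC_mono ?_ (LC_union hc hTN)
    rintro v ⟨hv, hvb⟩
    by_cases hvN : v ∈ N
    · exact Or.inr ⟨hv, hvN⟩
    · exact Or.inl ⟨hbO hvb, hv, hvN⟩
  have hne : G0.Nonempty := by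
    by_contra hc
    rw [not_nonempty_iff_eq_empty] at hc
    apply hLC
    refine LC_mono ?_ hTN
    intro w hw
    refine ⟨hw, ?_⟩
    by_contra hwN
    have : w ∈ G0 := ⟨hw, hwN⟩
    rw [hc] at this
    exact this
  have : Nonempty G0 := hne.to_subtype
  have : CompactSpace G0 := isCompact_iff_compactSpace.1 hG0c.isCompact
  have : IsCompletelyMetrizableSpace G0 := completely_metrizable_of_compact G0
  let W : Set (G0 × G0) := {v | v.1.1.1 ≠ v.2.1.1 ∧ v.1.1.2 ≠ v.2.1.2}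
  have hW : IsOpen W := by
    apply IsOpen.inter
    · exact isOpen_ne_fun (by fun_prop) (by fun_prop)
    · exact isOpen_ne_fun (by fun_prop) (by fun_prop)
  have hWd : Dense W := by
    rintro ⟨t, u⟩
    rw [mem_closure_iff]
    intro O hO htu
    obtain ⟨O1, O2, hO1, hO2, ht, hu, hOO⟩ := isOpen_prod_iff.1 hO t u htu
    obtain ⟨O2', hO2', rfl⟩ := isOpen_induced_iff.1 hO2
    by_contra hc
    apply hG0 O2' hO2' ⟨u.1, hu, u.2⟩
    refine ⟨{t.1.1, t.1.2}, (Set.countable_singleton _).insert _, ?_⟩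
    rintro v ⟨hv, hvG⟩
    by_contra hcon
    rw [not_or] at hcon
    apply hc
    refine ⟨(t, ⟨v, hvG⟩), hOO ⟨ht, hv⟩, ?_, ?_⟩
    · intro h
      exact hcon.1 (Or.inl h.symm)
    · intro h
      exact hcon.2 (Or.inr h.symm)
  obtain ⟨h, hh⟩ := Helper520.CD.mycielski' (fun _ : ℕ => W) (fun _ => hW) (fun _ => hWd)
  apply big_of_inj (fun s => (h s).1) (fun s => (h s).2.1)
  · intro s s' hss
    by_contra hne
    exact (hh s s' hne 0).1 hss
  · intro s s' hss
    by_contra hne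
    exact (hh s s' hne 0).2 hss

theorem continuous_g (n : ℕ) : Continuous (G.g n) := by
  rw [continuous_iff_continuousAt]
  intro x
  apply tendsto_const_nhds.congr'
  have : ∀ᶠ y in 𝓝 x, ∀ i ∈ Finset.range n, y i = x i := by
    rw [Filter.eventually_all_finset]
    intro i _
    exact (continuous_apply i).continuousAt.preimage_mem_nhds ((isOpen_discrete {x i}).mem_nhds rfl)
  filter_upwards [this] with y hy
  exact G.agree n _ _ fun i hi => (hy i (Finset.mem_range.2 hi)).symm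

theorem measurable_tw (T0 : Set (PP × Z)) (hT0 : IsClosed T0) [SecondCountableTopology Z] (b : Bool) :
    MeasurableSet {x : C | G.io ((x, b), (x, !b)) ∈ T0} := by
  borelize Z
  have hf : Measurable G.f :=
    measurable_of_tendsto_metrizable (fun n => (continuous_g (G := G) n).measurable)
      (tendsto_pi_nhds.2 G.lim)
  have h1 : Measurable (fun x : C => (((x, b), (x, !b)) : PP)) := by
    have : Continuous (fun x : C => (((x, b), (x, !b)) : PP)) := by fun_prop
    exact this.measurable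
  have h2 : (fun x : C => G.io ((x, b), (x, !b))) = fun x => (((x, b), (x, !b)), G.f x) := by
    funext x
    show ((((x, b), (x, !b)) : PP), G.F (x, b) (x, !b)) = _
    rw [G.F_twin (a := (x, b)) (b := (x, !b)) (by cases b <;> simp) rfl]
  have h3 : Measurable (fun x : C => G.io ((x, b), (x, !b))) := by
    rw [h2]
    exact h1.prodMk hf
  exact h3 hT0.measurableSet

theorem big_or_countable_tw (T0 : Set (PP × Z)) (hT0 : IsClosed T0) [SecondCountableTopology Z]
    (b : Bool) : Big {w | G.io w ∈ T0} ∨ {x : C | G.io ((x, b), (x, !b)) ∈ T0}.Countable := by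
  by_cases hS : {x : C | G.io ((x, b), (x, !b)) ∈ T0}.Countable
  · exact Or.inr hS
  left
  have : StandardBorelSpace {x : C | G.io ((x, b), (x, !b)) ∈ T0} :=
    (measurable_tw T0 hT0 b).standardBorel
  let e := PolishSpace.measurableEquivNatBoolOfNotCountable
    (α := {x : C | G.io ((x, b), (x, !b)) ∈ T0}) (fun h => hS (countable_coe_iff.1 h))
  refine big_of_inj (fun s => (((e.symm s).1, b), ((e.symm s).1, !b))) (fun s => (e.symm s).2)
    ?_ ?_
  · intro s s' h
    exact e.symm.injective (Subtype.ext (Prod.mk.inj h).1)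
  · intro s s' h
    exact e.symm.injective (Subtype.ext (Prod.mk.inj h).1)

theorem dichotomy [SecondCountableTopology Z] (T0 : Set (PP × Z)) (hT0 : IsClosed T0)
    (hB : ¬ Big {w | G.io w ∈ T0}) : LC {w | G.io w ∈ T0} := by
  classical
  -- the same sheet
  let T1 : Set PP := {w | w.1.2 = w.2.2 ∧ (w, G.f (fun _ => false)) ∈ T0}
  have hT1c : IsClosed T1 := by
    apply IsClosed.inter
    · exact isClosed_eq (by fun_prop) (by fun_prop)
    · exact hT0.preimage (f := fun w : PP => (w, G.f (fun _ => false))) (by fun_prop)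
  have hT1s : T1 ⊆ {w | G.io w ∈ T0} := by
    rintro w ⟨h1, h2⟩
    show (w, G.F w.1 w.2) ∈ T0
    rw [G.F_same h1]
    exact h2
  have hT1 : LC T1 := (big_or_LC_closed T1 hT1c).resolve_left fun h => hB (Big_mono hT1s h)
  -- different sheets, different points
  let T2 : ℕ → Set PP := fun n => {w | w.1.2 ≠ w.2.2 ∧ (∀ i < n, w.1.1 i = w.2.1 i) ∧
    w.1.1 n ≠ w.2.1 n ∧ (w, G.g n w.1.1) ∈ T0}
  have hT2c : ∀ n, IsClosed (T2 n) := by
    intro n
    apply IsClosed.inter
    · have : {w : PP | w.1.2 ≠ w.2.2} = (fun w : PP => (w.1.2, w.2.2)) ⁻¹' {v | v.1 ≠ v.2} := rfl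
      show IsClosed {w : PP | w.1.2 ≠ w.2.2}
      rw [this]
      exact (isClosed_discrete _).preimage (by fun_prop)
    apply IsClosed.inter
    · have : {w : PP | ∀ i < n, w.1.1 i = w.2.1 i} = ⋂ i, ⋂ (_ : i < n), {w | w.1.1 i = w.2.1 i} := by
        ext w; simp
      show IsClosed {w : PP | ∀ i < n, w.1.1 i = w.2.1 i}
      rw [this]
      exact isClosed_iInter fun i => isClosed_iInter fun _ => isClosed_eq (by fun_prop) (by fun_prop)
    apply IsClosed.inter
    · have : {w : PP | w.1.1 n ≠ w.2.1 n} = (fun w : PP => (w.1.1 n, w.2.1 n)) ⁻¹' {v | v.1 ≠ v.2} := rfl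
      show IsClosed {w : PP | w.1.1 n ≠ w.2.1 n}
      rw [this]
      exact (isClosed_discrete _).preimage (by fun_prop)
    · have hc : Continuous (fun w : PP => (w, G.g n w.1.1)) :=
        continuous_id.prodMk ((continuous_g n).comp (by fun_prop))
      exact hT0.preimage hc
  have hfd : ∀ n (w : PP), (∀ i < n, w.1.1 i = w.2.1 i) → w.1.1 n ≠ w.2.1 n → fd w.1.1 w.2.1 = n :=
    fun n w h1 h2 => fd_eq h1 h2
  have hT2s : ∀ n, T2 n ⊆ {w | G.io w ∈ T0} := by
    rintro n w ⟨h1, h2, h3, h4⟩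
    show (w, G.F w.1 w.2) ∈ T0
    rw [G.F_diff h1 (fun h => h3 (by rw [h])), hfd n w h2 h3]
    exact h4
  have hT2 : ∀ n, LC (T2 n) := fun n =>
    (big_or_LC_closed _ (hT2c n)).resolve_left fun h => hB (Big_mono (hT2s n) h)
  -- twins
  have hT3 : ∀ b : Bool, LC {w : PP | w.1.2 = b ∧ w.2.2 = !b ∧ w.1.1 = w.2.1 ∧ G.io w ∈ T0} := by
    intro b
    have h := (big_or_countable_tw T0 hT0 b).resolve_left hB
    refine ⟨(fun x : C => (x, b)) '' {x : C | G.io ((x, b), (x, !b)) ∈ T0}, h.image _, ?_⟩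
    rintro ⟨⟨x, i⟩, ⟨y, j⟩⟩ ⟨h1, h2, h3, h4⟩
    simp only at h1 h2 h3
    subst h1 h2 h3
    exact Or.inl ⟨x, h4, rfl⟩
  refine LC_mono ?_ (LC_union (LC_union hT1 (LC_iUnion T2 hT2)) (LC_iUnion _ hT3))
  intro w hw
  have hw' : (w, G.F w.1 w.2) ∈ T0 := hw
  by_cases h1 : w.1.2 = w.2.2
  · left; left
    refine ⟨h1, ?_⟩
    rw [G.F_same h1] at hw'
    exact hw'
  · by_cases h2 : w.1.1 = w.2.1
    · right
      refine mem_iUnion.2 ⟨w.1.2, rfl, ?_, h2, hw⟩
      cases h3 : w.1.2 <;> cases h4 : w.2.2 <;> simp_all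
    · left; right
      refine mem_iUnion.2 ⟨fd w.1.1 w.2.1, h1, fun i hi => fd_agree hi, fd_ne h2, ?_⟩
      rw [G.F_diff h1 h2] at hw'
      exact hw'

end Pool.Agent.P8H81.DD
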