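import Mathlib

set_option autoImplicit false

/-!
Spaces of covering dimension at most `n` (finite cozero covers) have no `n + 1` essential pairs.
-/

namespace Pool.Agent.P8H81.DD

open Set TopologicalSpace Filter Topology MeasureTheory

theorem exists_generic (n l : ℕ) (pts : Fin l → (Fin (n + 1) → ℝ)) :
    ∃ p : Fin (n + 1) → ℝ, (∀ i, 0 < p i ∧ p i < 1) ∧
      ∀ J : Finset (Fin l), J.Nonempty → J.card ≤ n + 1 →
        p ∉ (affineSpan ℝ (pts '' (J : Set (Fin l))) : Set (Fin (n + 1) → ℝ)) := by
  classical
  by_contra hc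
  push Not at hc
  let 𝒥 := {J : Finset (Fin l) // J.Nonempty ∧ J.card ≤ n + 1}
  have hsub : Set.pi univ (fun _ : Fin (n + 1) => Ioo (0 : ℝ) 1) ⊆
      ⋃ J : 𝒥, (affineSpan ℝ (pts '' (J.1 : Set (Fin l))) : Set (Fin (n + 1) → ℝ)) := by
    intro p hp
    obtain ⟨J, hJ1, hJ2, hJ3⟩ := hc p (fun i => hp i (mem_univ i))
    exact mem_iUnion.2 ⟨⟨J, hJ1, hJ2⟩, hJ3⟩
  have hnull : ∀ J : 𝒥, volume (affineSpan ℝ (pts '' (J.1 : Set (Fin l))) :
      Set (Fin (n + 1) → ℝ)) = 0 := by
    rintro ⟨J, hJ1, hJ2⟩
    apply Measure.addHaar_affineSubspace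
    intro htop
    have h1 : (affineSpan ℝ (pts '' (J : Set (Fin l)))).direction = ⊤ := by
      rw [htop, AffineSubspace.direction_top]
    rw [direction_affineSpan] at h1
    have hcard : J.card = (J.card - 1) + 1 := by
      have := hJ1.card_pos
      omega
    have h2 := finrank_vectorSpan_image_finset_le ℝ pts J (n := J.card - 1) hcard
    rw [Finset.coe_image, h1, finrank_top, Module.finrank_fin_fun] at h2
    omega
  have h0 : volume (⋃ J : 𝒥, (affineSpan ℝ (pts '' (J.1 : Set (Fin l))) :
      Set (Fin (n + 1) → ℝ))) = 0 := measure_iUnion_null hnull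
  have h1 := measure_mono_null hsub h0
  rw [volume_pi_pi] at h1
  simp at h1

theorem dim_partition {A : Type*} [TopologicalSpace A] (n : ℕ)
    (hdim : ∀ (m : ℕ) (U : Fin m → Set A),
      (∀ i, ∃ f : A → ℝ, Continuous f ∧ U i = {x | f x ≠ 0}) →
      (⋃ i, U i) = univ →
      ∃ (l : ℕ) (V : Fin l → Set A),
        (∀ j, ∃ f : A → ℝ, Continuous f ∧ V j = {x | f x ≠ 0}) ∧
        (⋃ j, V j) = univ ∧ (∀ j, ∃ i, V j ⊆ U i) ∧
        ∀ x, {j : Fin l | x ∈ V j}.ncard ≤ n + 1)
    (φ : Fin (n + 1) → A → ℝ) (hφ : ∀ i, Continuous (φ i)) :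
    ∃ U V : Fin (n + 1) → Set A, (∀ i, IsOpen (U i)) ∧ (∀ i, IsOpen (V i)) ∧
      (∀ i x, x ∈ U i → x ∉ V i) ∧ (∀ i x, φ i x ≤ 1 / 3 → x ∈ U i) ∧
      (∀ i x, 2 / 3 ≤ φ i x → x ∈ V i) ∧ ∀ x, ∃ i, x ∈ U i ∨ x ∈ V i := by
  classical
  let E := Fin (n + 1) → Bool
  let e : E ≃ Fin (Fintype.card E) := Fintype.equivFin E
  let h : E → A → ℝ := fun ε x => ∏ i, if ε i then max (φ i x - 1 / 3) 0 else max (2 / 3 - φ i x) 0
  have hcont : ∀ ε, Continuous (h ε) := by
    intro ε
    apply continuous_finsetProd
    intro i _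
    by_cases hε : ε i
    · simp only [hε, if_true]
      exact ((hφ i).sub continuous_const).max continuous_const
    · simp only [hε]
      exact (continuous_const.sub (hφ i)).max continuous_const
  have hmem : ∀ ε x, h ε x ≠ 0 ↔ ∀ i, (ε i = true → 1 / 3 < φ i x) ∧ (ε i = false → φ i x < 2 / 3) := by
    intro ε x
    simp only [h]
    rw [Finset.prod_ne_zero_iff]
    constructor
    · intro hx i
      have := hx i (Finset.mem_univ i)
      constructor
      · intro hε
        rw [if_pos hε] at this
        by_contra hc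
        apply this
        apply max_eq_right
        linarith
      · intro hε
        rw [if_neg (by rw [hε]; simp)] at this
        by_contra hc
        apply this
        apply max_eq_right
        linarith
    · intro hx i _
      obtain ⟨h1, h2⟩ := hx i
      by_cases hε : ε i = true
      · rw [if_pos hε]
        have := h1 hε
        have h3 : 0 < max (φ i x - 1 / 3) 0 := lt_max_of_lt_left (by linarith)
        exact h3.ne'
      · rw [if_neg hε]
        have := h2 (by simpa using hε)
        have h3 : 0 < max (2 / 3 - φ i x) 0 := lt_max_of_lt_left (by linarith)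
        exact h3.ne'
  obtain ⟨l, V', hV1, hV2, hV3, hV4⟩ := hdim (Fintype.card E) (fun k => {x | h (e.symm k) x ≠ 0})
    (fun k => ⟨h (e.symm k), hcont _, rfl⟩) (by
      rw [eq_univ_iff_forall]
      intro x
      refine mem_iUnion.2 ⟨e (fun i => decide (1 / 3 < φ i x)), ?_⟩
      show h (e.symm (e _)) x ≠ 0
      rw [Equiv.symm_apply_apply, hmem]
      intro i
      constructor
      · intro hi; simpa using hi
      · intro hi
        have : φ i x ≤ 1 / 3 := by simpa using hi
        linarith)
  choose ff hff1 hff2 using hV1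
  choose idx hidx using hV3
  let pts : Fin l → (Fin (n + 1) → ℝ) := fun j i => if e.symm (idx j) i then 1 else 0
  obtain ⟨p, hp1, hp2⟩ := exists_generic n l pts
  let S : A → ℝ := fun x => ∑ j, |ff j x|
  have hS : ∀ x, 0 < S x := by
    intro x
    have : x ∈ ⋃ j, V' j := by rw [hV2]; trivial
    obtain ⟨j, hj⟩ := mem_iUnion.1 this
    rw [hff2] at hj
    have h1 : |ff j x| ≤ S x := Finset.single_le_sum (f := fun j => |ff j x|)
      (fun _ _ => abs_nonneg _) (Finset.mem_univ j)
    exact (abs_pos.2 hj).trans_le h1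
  have hSc : Continuous S := continuous_finsetSum _ fun j _ => (hff1 j).abs
  let Ψ : Fin (n + 1) → A → ℝ := fun i x => ∑ j, |ff j x| / S x * pts j i
  have hΨc : ∀ i, Continuous (Ψ i) := by
    intro i
    apply continuous_finsetSum
    intro j _
    exact ((hff1 j).abs.div hSc (fun x => (hS x).ne')).mul continuous_const
  have hsum1 : ∀ x, ∑ j, |ff j x| / S x = 1 := by
    intro x
    rw [← Finset.sum_div]
    exact div_self (hS x).ne'
  have hΨne : ∀ x, ∃ i, Ψ i x ≠ p i := by
    intro x
    by_contra hc
    push Not at hc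
    let J : Finset (Fin l) := Finset.univ.filter fun j => x ∈ V' j
    have hJne : J.Nonempty := by
      have : x ∈ ⋃ j, V' j := by rw [hV2]; trivial
      obtain ⟨j, hj⟩ := mem_iUnion.1 this
      exact ⟨j, by simp [J, hj]⟩
    have hJc : J.card ≤ n + 1 := by
      have h1 := hV4 x
      have h2 : {j : Fin l | x ∈ V' j} = (J : Set (Fin l)) := by
        ext j; simp [J]
      rw [h2, Set.ncard_coe_finset] at h1
      exact h1
    apply hp2 J hJne hJc
    have hz : ∀ j, j ∉ J → |ff j x| / S x = 0 := by
      intro j hj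
      have : x ∉ V' j := by simpa [J] using hj
      rw [hff2] at this
      have h3 : ff j x = 0 := by
        by_contra h4
        exact this h4
      rw [h3]; simp
    have hpΨ : p = ∑ j ∈ J, (|ff j x| / S x) • pts j := by
      funext i
      rw [← hc i, Finset.sum_apply]
      simp only [Ψ, Pi.smul_apply, smul_eq_mul]
      symm
      apply Finset.sum_subset (Finset.subset_univ J)
      intro j _ hj
      rw [hz j hj, zero_mul]
    rw [hpΨ]
    apply convexHull_subset_affineSpan
    apply (convex_convexHull ℝ _).sum_mem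
    · intro j _
      exact div_nonneg (abs_nonneg _) (hS x).le
    · rw [← hsum1 x]
      apply Finset.sum_subset (Finset.subset_univ J)
      intro j _ hj
      exact hz j hj
    · intro j hj
      exact subset_convexHull ℝ _ ⟨j, hj, rfl⟩
  refine ⟨fun i => {x | Ψ i x < p i}, fun i => {x | p i < Ψ i x}, ?_, ?_, ?_, ?_, ?_, ?_⟩
  · intro i
    exact isOpen_lt (hΨc i) continuous_const
  · intro i
    exact isOpen_lt continuous_const (hΨc i)
  · intro i x h1 h2
    have h1' : Ψ i x < p i := h1
    have h2' : p i < Ψ i x := h2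
    linarith
  · intro i x hx
    show Ψ i x < p i
    have : Ψ i x = 0 := by
      apply Finset.sum_eq_zero
      intro j _
      by_cases hj : x ∈ V' j
      · have h1 : h (e.symm (idx j)) x ≠ 0 := hidx j hj
        rw [hmem] at h1
        have h2 : e.symm (idx j) i ≠ true := fun h3 => by
          have := (h1 i).1 h3
          linarith
        simp only [pts, if_neg h2, mul_zero]
      · rw [hff2] at hj
        have h3 : ff j x = 0 := by
          by_contra h4
          exact hj h4
        rw [h3]; simp
    rw [this]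
    exact (hp1 i).1
  · intro i x hx
    show p i < Ψ i x
    have : Ψ i x = 1 := by
      rw [← hsum1 x]
      apply Finset.sum_congr rfl
      intro j _
      by_cases hj : x ∈ V' j
      · have h1 : h (e.symm (idx j)) x ≠ 0 := hidx j hj
        rw [hmem] at h1
        have h2 : e.symm (idx j) i = true := by
          by_contra h3
          have := (h1 i).2 (by simpa using h3)
          linarith
        simp only [pts, if_pos h2, mul_one]
      · rw [hff2] at hj
        have h3 : ff j x = 0 := by
          by_contra h4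
          exact hj h4
        rw [h3]; simp
    rw [this]
    exact (hp1 i).2
  · intro x
    obtain ⟨i, hi⟩ := hΨne x
    exact ⟨i, lt_or_gt_of_ne hi⟩

end Pool.Agent.P8H81.DD
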