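import Mathlib
import Pool.Agent.P8H81.DD.Di

set_option autoImplicit false

/-!
Normality of the square.
-/

namespace Pool.Agent.P8H81.DD

open Set TopologicalSpace Filter Topology
open scoped Cardinal

variable {Z : Type} [MetricSpace Z] {G : Gf Z} {D : Dat G}

theorem St_countable (p : Pt) : {w : Pt × ℕ | ∃ n, D.St p n w.1 w.2}.Countable := by
  have : {w : Pt × ℕ | ∃ n, D.St p n w.1 w.2} ⊆
      ⋃ k, {w : Pt × ℕ | ∃ n, D.St p n w.1 w.2 ∧ fd w.1.1 p.1 = k} := by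
    rintro w ⟨n, hn⟩
    exact mem_iUnion.2 ⟨_, n, hn, rfl⟩
  exact (countable_iUnion fun k => (St_finite p k).countable).mono this

/-- Good covers for a pair of sets. -/
def GC (H K : Set (Y D × Y D)) (S : Set (Y D × Y D)) : Prop :=
  ∃ 𝒲 : Set (Set (Y D × Y D)), 𝒲.Countable ∧
    (∀ W ∈ 𝒲, IsOpen W ∧ (Disjoint (closure W) H ∨ Disjoint (closure W) K)) ∧ S ⊆ ⋃₀ 𝒲

theorem GC_mono {H K S S' : Set (Y D × Y D)} (h : S ⊆ S') (h' : GC H K S') : GC H K S := by
  obtain ⟨𝒲, h1, h2, h3⟩ := h'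
  exact ⟨𝒲, h1, h2, h.trans h3⟩

theorem GC_iUnion {ι : Type*} [Countable ι] {H K : Set (Y D × Y D)} (S : ι → Set (Y D × Y D))
    (h : ∀ i, GC H K (S i)) : GC H K (⋃ i, S i) := by
  choose 𝒲 h1 h2 h3 using h
  refine ⟨⋃ i, 𝒲 i, countable_iUnion h1, ?_, ?_⟩
  · intro W hW
    obtain ⟨i, hi⟩ := mem_iUnion.1 hW
    exact h2 i W hi
  · intro w hw
    obtain ⟨i, hi⟩ := mem_iUnion.1 hw
    obtain ⟨W, hW, hwW⟩ := h3 i hi
    exact ⟨W, mem_iUnion.2 ⟨i, hW⟩, hwW⟩

theorem GC_swap {H K S : Set (Y D × Y D)} (h : GC (Prod.swap ⁻¹' H) (Prod.swap ⁻¹' K) S) :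
    GC H K (Prod.swap ⁻¹' S) := by
  obtain ⟨𝒲, h1, h2, h3⟩ := h
  refine ⟨(fun W => Prod.swap ⁻¹' W) '' 𝒲, h1.image _, ?_, ?_⟩
  · rintro _ ⟨W, hW, rfl⟩
    obtain ⟨h4, h5⟩ := h2 W hW
    refine ⟨h4.preimage continuous_swap, ?_⟩
    have h6 : closure ((Prod.swap : Y D × Y D → Y D × Y D) ⁻¹' W) ⊆ Prod.swap ⁻¹' closure W :=
      continuous_swap.closure_preimage_subset W
    rcases h5 with h5 | h5
    · left
      rw [disjoint_left] at h5 ⊢
      intro w hw hwH
      exact h5 (h6 hw) (by simpa using hwH)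
    · right
      rw [disjoint_left] at h5 ⊢
      intro w hw hwH
      exact h5 (h6 hw) (by simpa using hwH)
  · intro w hw
    obtain ⟨W, hW, hwW⟩ := h3 hw
    exact ⟨_, ⟨W, hW, rfl⟩, hwW⟩

theorem line_cover (hD : Captures D) (H K : Set (Y D × Y D)) (hH : IsClosed H) (hK : IsClosed K)
    (hHK : Disjoint H K) (a : Pt) : GC H K (D.V a 0 ×ˢ univ) := by
  classical
  induction a using (wf_R (D := D)).induction with
  | _ a ih =>
    -- the lower part
    have h1 : GC H K (⋃ w : {w : Pt × ℕ | ∃ n, D.St a n w.1 w.2}, D.V w.1.1 0 ×ˢ univ) := by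
      have : Countable {w : Pt × ℕ | ∃ n, D.St a n w.1 w.2} := (St_countable a).to_subtype
      apply GC_iUnion
      rintro ⟨⟨y, m⟩, n, hs⟩
      exact ih y ⟨n, m, hs⟩
    -- the vertical line
    let S : ℕ → Set (Y D × Y D) := fun q => if q % 2 = 0 then H else K
    have hS : ∀ q, S q = H ∨ S q = K := by
      intro q
      by_cases h : q % 2 = 0
      · left; simp only [S, if_pos h]
      · right; simp only [S, if_neg h]
    let U : ℕ → Set (Y D) := fun q => {z | ∃ N, Disjoint (D.V a (q / 2) ×ˢ D.V z N) (S q)}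
    have hU : ∀ q, IsOpen (U q) := by
      intro q
      rw [isOpen_iff_V]
      rintro z ⟨N, hN⟩
      refine ⟨N, fun z' hz' => ?_⟩
      obtain ⟨N', hN'⟩ := isOpen_iff_V.1 (isOpen_V z N) z' hz'
      refine ⟨N', ?_⟩
      exact hN.mono_left (prod_mono le_rfl hN')
    have hcov : ∀ F : Set (Y D × Y D), IsClosed F → ∀ z : Y D, ((a, z) : Y D × Y D) ∉ F →
        ∃ n N, Disjoint (D.V a n ×ˢ D.V z N) F := by
      intro F hF z hz
      obtain ⟨O1, O2, hO1, hO2, hw1, hw2, hOO⟩ := isOpen_prod_iff.1 hF.isOpen_compl a z hz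
      obtain ⟨N1, hN1⟩ := isOpen_iff_V.1 hO1 _ hw1
      obtain ⟨N2, hN2⟩ := isOpen_iff_V.1 hO2 _ hw2
      refine ⟨N1, N2, ?_⟩
      rw [disjoint_left]
      rintro ⟨x, y⟩ ⟨hx, hy⟩
      exact hOO ⟨hN1 hx, hN2 hy⟩
    have hUc : ⋃ q, U q = univ := by
      rw [eq_univ_iff_forall]
      intro z
      by_cases hz : ((a, z) : Y D × Y D) ∈ H
      · have hz' : ((a, z) : Y D × Y D) ∉ K := fun h => disjoint_left.1 hHK hz h
        obtain ⟨n, N, hN⟩ := hcov K hK z hz'
        refine mem_iUnion.2 ⟨2 * n + 1, N, ?_⟩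
        have e1 : (2 * n + 1) / 2 = n := by omega
        have e2 : (2 * n + 1) % 2 ≠ 0 := by omega
        simp only [S, if_neg e2, e1]
        exact hN
      · obtain ⟨n, N, hN⟩ := hcov H hH z hz
        refine mem_iUnion.2 ⟨2 * n, N, ?_⟩
        have e1 : (2 * n) / 2 = n := by omega
        have e2 : (2 * n) % 2 = 0 := by omega
        simp only [S, if_pos e2, e1]
        exact hN
    obtain ⟨O, hO1, hO2, hO3⟩ := clopen_cover hD U hU hUc
    choose qq hqq using hO2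
    have h2 : GC H K ({a} ×ˢ univ) := by
      refine ⟨range fun j => D.V a (qq j / 2) ×ˢ O j, countable_range _, ?_, ?_⟩
      · rintro _ ⟨j, rfl⟩
        have hcl : IsClosed (D.V a (qq j / 2) ×ˢ O j) := (isClosed_V _ _).prod (hO1 j).isClosed
        refine ⟨(isOpen_V _ _).prod (hO1 j).isOpen, ?_⟩
        rw [hcl.closure_eq]
        have hdis : Disjoint (D.V a (qq j / 2) ×ˢ O j) (S (qq j)) := by
          rw [disjoint_left]
          rintro ⟨x, z⟩ ⟨hx, hz⟩ hF
          obtain ⟨N, hN⟩ := hqq j hz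
          exact disjoint_left.1 hN ⟨hx, mem_V z N⟩ hF
        rcases hS (qq j) with h | h
        · left; rw [← h]; exact hdis
        · right; rw [← h]; exact hdis
      · rintro ⟨x, z⟩ ⟨hx, _⟩
        have hx' : x = a := hx
        rw [hx']
        have : z ∈ ⋃ j, O j := by rw [hO3]; trivial
        obtain ⟨j, hj⟩ := mem_iUnion.1 this
        exact ⟨_, ⟨j, rfl⟩, mem_V _ _, hj⟩
    have h3 := GC_iUnion (fun b : Bool => cond b (⋃ w : {w : Pt × ℕ | ∃ n, D.St a n w.1 w.2},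
      D.V w.1.1 0 ×ˢ (univ : Set (Y D))) ({a} ×ˢ univ)) (by rintro (_ | _); exacts [h2, h1])
    refine GC_mono ?_ h3
    rintro ⟨x, z⟩ ⟨hx, _⟩
    have hx' : D.InV a 0 x := hx
    cases hx' with
    | refl => exact mem_iUnion.2 ⟨false, rfl, trivial⟩
    | step _ _ n y m _ hn hs h =>
      refine mem_iUnion.2 ⟨true, mem_iUnion.2 ⟨⟨(y, m), n, hs⟩, ?_, trivial⟩⟩
      exact InV_mono (Nat.zero_le _) h

theorem exists_dense_io [SecondCountableTopology Z] (H : Set (Y D × Y D)) : ∃ E : Set PP,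
    E.Countable ∧ (∀ w ∈ E, op D w ∈ H) ∧ ∀ w : PP, op D w ∈ H → G.io w ∈ closure (G.io '' E) := by
  obtain ⟨E', hE1, hE2, hE3⟩ := dense_sub (G.io '' {w : PP | op D w ∈ H})
  refine ⟨{w | op D w ∈ H ∧ G.io w ∈ E'}, ?_, fun w hw => hw.1, ?_⟩
  · refine (hE2.image Prod.fst).mono ?_
    rintro w ⟨_, hw⟩
    exact ⟨G.io w, hw, rfl⟩
  · intro w hw
    refine closure_mono ?_ (hE3 (mem_image_of_mem _ hw))
    intro v hv
    obtain ⟨w', hw', rfl⟩ := hE1 hv
    exact ⟨w', ⟨hw', hv⟩, rfl⟩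

theorem separating_of_GC {H K : Set (Y D × Y D)} (h : GC H K univ) : HasSeparatingCover H K := by
  classical
  obtain ⟨𝒲, h1, h2, h3⟩ := h
  let 𝒲' : Set (Set (Y D × Y D)) := insert ∅ {W ∈ 𝒲 | Disjoint (closure W) K}
  have hc : 𝒲'.Countable := (h1.mono (sep_subset _ _)).insert _
  obtain ⟨u, hu⟩ := hc.exists_eq_range ⟨∅, mem_insert _ _⟩
  have hum : ∀ n, u n ∈ 𝒲' := fun n => by rw [hu]; exact ⟨n, rfl⟩
  refine ⟨u, ?_, ?_⟩
  · intro w hw
    obtain ⟨W, hW, hwW⟩ := h3 (mem_univ w)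
    have hWK : Disjoint (closure W) K := by
      rcases (h2 W hW).2 with h | h
      · exact absurd hw (fun hw => disjoint_left.1 h (subset_closure hwW) hw)
      · exact h
    have : W ∈ 𝒲' := Or.inr ⟨hW, hWK⟩
    rw [hu] at this
    obtain ⟨n, rfl⟩ := this
    exact mem_iUnion.2 ⟨n, hwW⟩
  · intro n
    rcases hum n with h | ⟨hW, hWK⟩
    · rw [h]
      exact ⟨isOpen_empty, by rw [closure_empty]; exact disjoint_bot_left⟩
    · exact ⟨(h2 _ hW).1, hWK⟩

theorem GC_comm {H K S : Set (Y D × Y D)} (h : GC H K S) : GC K H S := by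
  obtain ⟨𝒲, h1, h2, h3⟩ := h
  exact ⟨𝒲, h1, fun W hW => ⟨(h2 W hW).1, (h2 W hW).2.symm⟩, h3⟩

theorem GC_univ [SecondCountableTopology Z] (hD : Captures D) (H K : Set (Y D × Y D))
    (hH : IsClosed H) (hK : IsClosed K) (hHK : Disjoint H K) : GC H K univ := by
  classical
  obtain ⟨EH, hEHc, hEH1, hEH2⟩ := exists_dense_io H
  obtain ⟨EK, hEKc, hEK1, hEK2⟩ := exists_dense_io K
  set cH : Set (PP × Z) := closure (G.io '' EH) with hcH
  set cK : Set (PP × Z) := closure (G.io '' EK) with hcK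
  -- the common closure is small
  have hLC : LC {w | G.io w ∈ cH ∩ cK} := by
    apply dichotomy _ (isClosed_closure.inter isClosed_closure)
    intro hB
    obtain ⟨t, ht1, ht2⟩ := exists_task (fun q => if q = 0 then EH else EK)
      (by intro q; split_ifs; exacts [hEHc, hEKc]) (fun a b => a = 0 ∧ (b = 1 ∨ b = 2))
    have hgood : Good G t := by
      refine ⟨Big_mono ?_ hB, ?_⟩
      · rintro w ⟨hw1, hw2⟩ a b hab _
        rw [ht2] at hab
        obtain ⟨_, (rfl | rfl)⟩ := hab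
        · show G.io w ∈ closure (G.io '' hs t 0)
          rw [ht1]; exact hw1
        · show G.io w ∈ closure (G.io '' hs t 1)
          rw [ht1]; exact hw2
      · rw [ht2]; exact ⟨rfl, Or.inl rfl⟩
    obtain ⟨w, hw, hw2⟩ := hD t hgood
    have k1 : G.io w ∈ closure (G.io '' hs t 0) :=
      hw 0 1 (by rw [ht2]; exact ⟨rfl, Or.inl rfl⟩) trivial
    have k2 : G.io w ∈ closure (G.io '' hs t 1) :=
      hw 0 2 (by rw [ht2]; exact ⟨rfl, Or.inr rfl⟩) trivial
    have k3 := hw2 0 k1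
    have k4 := hw2 1 k2
    have k5 : op D w ∈ H := by
      rw [← hH.closure_eq]
      refine closure_mono ?_ k3
      rintro _ ⟨v, hv, rfl⟩
      rw [ht1] at hv
      exact hEH1 v hv
    have k6 : op D w ∈ K := by
      rw [← hK.closure_eq]
      refine closure_mono ?_ k4
      rintro _ ⟨v, hv, rfl⟩
      rw [ht1] at hv
      exact hEK1 v hv
    exact disjoint_left.1 hHK k5 k6
  obtain ⟨A, hA, hAL⟩ := hLC
  -- outside the common closure
  let io' : Y D × Y D → PP × Z := fun w => G.io (toPt w.1, toPt w.2)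
  have hio' : Continuous io' := continuous_io
  have hcH' : ∀ w ∈ H, io' w ∈ cH := fun w hw => hEH2 w hw
  have hcK' : ∀ w ∈ K, io' w ∈ cK := fun w hw => hEK2 w hw
  let 𝓑 := countableBasis (PP × Z)
  have h𝓑 : IsTopologicalBasis 𝓑 := isBasis_countableBasis (PP × Z)
  have h1 : GC H K {w | io' w ∉ cH ∩ cK} := by
    refine ⟨(fun B => io' ⁻¹' B) '' {B ∈ 𝓑 | Disjoint (closure B) cH ∨ Disjoint (closure B) cK},
      ((countable_countableBasis _).mono (sep_subset _ _)).image _, ?_, ?_⟩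
    · rintro _ ⟨B, ⟨hB, hB2⟩, rfl⟩
      refine ⟨(h𝓑.isOpen hB).preimage hio', ?_⟩
      have h6 : closure (io' ⁻¹' B) ⊆ io' ⁻¹' closure B := hio'.closure_preimage_subset B
      rcases hB2 with h | h
      · left
        rw [disjoint_left] at h ⊢
        exact fun w hw hwH => h (h6 hw) (hcH' w hwH)
      · right
        rw [disjoint_left] at h ⊢
        exact fun w hw hwK => h (h6 hw) (hcK' w hwK)
    · intro w hw
      have hw' : io' w ∉ cH ∨ io' w ∉ cK := by
        by_contra hc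
        push Not at hc
        exact hw hc
      rcases hw' with h | h
      · obtain ⟨B, hB, hwB, hBc⟩ := h𝓑.exists_closure_subset
          ((isClosed_closure (s := G.io '' EH)).isOpen_compl.mem_nhds h)
        exact ⟨_, ⟨B, ⟨hB, Or.inl (disjoint_left.2 fun x hx => hBc hx)⟩, rfl⟩, hwB⟩
      · obtain ⟨B, hB, hwB, hBc⟩ := h𝓑.exists_closure_subset
          ((isClosed_closure (s := G.io '' EK)).isOpen_compl.mem_nhds h)
        exact ⟨_, ⟨B, ⟨hB, Or.inr (disjoint_left.2 fun x hx => hBc hx)⟩, rfl⟩, hwB⟩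
  -- the lines
  have : Countable A := hA.to_subtype
  have h2 : GC H K (⋃ a : A, D.V a.1 0 ×ˢ univ) :=
    GC_iUnion _ fun a => line_cover hD H K hH hK hHK a.1
  have h3 : GC H K (⋃ a : A, Prod.swap ⁻¹' (D.V a.1 0 ×ˢ univ)) := by
    apply GC_iUnion
    intro a
    apply GC_swap
    exact line_cover hD _ _ (hH.preimage continuous_swap) (hK.preimage continuous_swap)
      (hHK.preimage _) a.1
  have h4 := GC_iUnion (fun b : Bool => cond b (⋃ a : A, D.V a.1 0 ×ˢ (univ : Set (Y D)))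
    (⋃ a : A, Prod.swap ⁻¹' (D.V a.1 0 ×ˢ univ))) (by rintro (_ | _); exacts [h3, h2])
  have h5 := GC_iUnion (fun b : Bool => cond b {w | io' w ∉ cH ∩ cK} (⋃ b : Bool,
    cond b (⋃ a : A, D.V a.1 0 ×ˢ (univ : Set (Y D)))
    (⋃ a : A, Prod.swap ⁻¹' (D.V a.1 0 ×ˢ univ)))) (by rintro (_ | _); exacts [h4, h1])
  refine GC_mono ?_ h5
  intro w _
  by_cases hw : io' w ∈ cH ∩ cK
  · rcases hAL w hw with h | h
    · exact mem_iUnion.2 ⟨false, mem_iUnion.2 ⟨true, mem_iUnion.2 ⟨⟨w.1, h⟩, mem_V _ _, trivial⟩⟩⟩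
    · exact mem_iUnion.2 ⟨false, mem_iUnion.2 ⟨false, mem_iUnion.2 ⟨⟨w.2, h⟩, mem_V _ _, trivial⟩⟩⟩
  · exact mem_iUnion.2 ⟨true, hw⟩

theorem normal_sq [SecondCountableTopology Z] (hD : Captures D) : NormalSpace (Y D × Y D) := by
  constructor
  intro H K hH hK hHK
  rw [← hasSeparatingCovers_iff_separatedNhds]
  have h := GC_univ hD H K hH hK hHK
  exact ⟨separating_of_GC h, separating_of_GC (GC_comm h)⟩

end Pool.Agent.P8H81.DD
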