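import Mathlib
import Pool.Agent.P8H81.DD.Nm
import Pool.Agent.P8H81.DD.Dm

set_option autoImplicit false

/-!
The square is not countable-dimensional.
-/

namespace Pool.Agent.P8H81.DD

open Set TopologicalSpace Filter Topology

/-- Covering dimension at most `n` by finite cozero covers. -/
def DimLe (A : Type*) [TopologicalSpace A] (n : ℕ) : Prop :=
  ∀ (m : ℕ) (U : Fin m → Set A),
    (∀ i, ∃ f : A → ℝ, Continuous f ∧ U i = {x | f x ≠ 0}) →
    (⋃ i, U i) = univ →
    ∃ (l : ℕ) (V : Fin l → Set A),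
      (∀ j, ∃ f : A → ℝ, Continuous f ∧ V j = {x | f x ≠ 0}) ∧
      (⋃ j, V j) = univ ∧ (∀ j, ∃ i, V j ⊆ U i) ∧
      ∀ x, {j : Fin l | x ∈ V j}.ncard ≤ n + 1

/-- The twin pair over a point of the Cantor set. -/
def tw (x : C) : PP := ((x, false), (x, true))

variable {Z : Type} [MetricSpace Z] {G : Gf Z} {D : Dat G}

theorem io_tw (x : C) : G.io (tw x) = (tw x, G.f x) := by
  show (tw x, G.F (x, false) (x, true)) = _
  rw [G.F_twin (a := (x, false)) (b := (x, true)) (by simp) rfl]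

theorem isClosed_range_tw : IsClosed (range tw) := by
  have hc : Continuous tw := by unfold tw; fun_prop
  exact (isCompact_range hc).isClosed

/-- Separators in a metrizable space for two separated sets. -/
theorem exists_sep {W : Type*} [TopologicalSpace W] [MetrizableSpace W] {S1 S2 : Set W}
    (h1 : Disjoint (closure S1) S2) (h2 : Disjoint S1 (closure S2)) :
    ∃ O1 O2 : Set W, IsOpen O1 ∧ IsOpen O2 ∧ S1 ⊆ O1 ∧ S2 ⊆ O2 ∧ Disjoint O1 O2 := by
  let := metrizableSpaceMetric W
  exact separatedNhds_iff_disjoint.2 (CompletelyNormalSpace.completely_normal h1 h2)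

theorem not_countable_dim [CompactSpace Z] [SecondCountableTopology Z] (hD : Captures D)
    (co : ℕ → Z → ℝ) (hco : ∀ i, Continuous (co i))
    (hess : ∀ O1 O2 : ℕ → Set Z, (∀ i, IsOpen (O1 i)) → (∀ i, IsOpen (O2 i)) →
      (∀ i, Disjoint (O1 i) (O2 i)) → (∀ i z, co i z = 0 → z ∈ O1 i) →
      (∀ i z, co i z = 1 → z ∈ O2 i) → ∃ z, ∀ i, z ∉ O1 i ∧ z ∉ O2 i)
    (hit : ∀ L : Set (C × Z), IsClosed L → (∀ x, ∃ z, (x, z) ∈ L) →
      ∃ e : C → C, Function.Injective e ∧ ∀ d, (e d, G.f (e d)) ∈ L) :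
    ¬ ∃ A : ℕ → Set (Y D × Y D), (⋃ k, A k) = univ ∧ ∀ k, ∃ n : ℕ, DimLe (A k) n := by
  classical
  rintro ⟨A, hA, hdim⟩
  choose n hn using hdim
  have hpart : ∀ k, ∃ U V : Fin (n k + 1) → Set (Y D × Y D), (∀ i, IsOpen (U i)) ∧
      (∀ i, IsOpen (V i)) ∧ (∀ i, ∀ w ∈ A k, w ∈ U i → w ∉ V i) ∧
      (∀ i : Fin (n k + 1), ∀ w ∈ A k, co (Nat.pair k i.1) (G.F w.1 w.2) ≤ 1 / 3 → w ∈ U i) ∧
      (∀ i : Fin (n k + 1), ∀ w ∈ A k, 2 / 3 ≤ co (Nat.pair k i.1) (G.F w.1 w.2) → w ∈ V i) ∧
      ∀ w ∈ A k, ∃ i, w ∈ U i ∨ w ∈ V i := by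
    intro k
    obtain ⟨U, V, h1, h2, h3, h4, h5, h6⟩ := dim_partition (n k) (hn k)
      (fun i (w : A k) => co (Nat.pair k i.1) (G.F w.1.1 w.1.2))
      (fun i => (hco _).comp ((continuous_F (D := D)).comp continuous_subtype_val))
    choose U' hU1 hU2 using fun i => isOpen_induced_iff.1 (h1 i)
    choose V' hV1 hV2 using fun i => isOpen_induced_iff.1 (h2 i)
    refine ⟨U', V', hU1, hV1, ?_, ?_, ?_, ?_⟩
    · intro i w hw hwU hwV
      apply h3 i ⟨w, hw⟩
      · rw [← hU2]; exact hwU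
      · rw [← hV2]; exact hwV
    · intro i w hw hle
      have := h4 i ⟨w, hw⟩ hle
      rw [← hU2] at this
      exact this
    · intro i w hw hle
      have := h5 i ⟨w, hw⟩ hle
      rw [← hV2] at this
      exact this
    · intro w hw
      obtain ⟨i, hi⟩ := h6 ⟨w, hw⟩
      rw [← hU2, ← hV2] at hi
      exact ⟨i, hi⟩
  choose U V hU hV hUV hUlow hVup hcov using hpart
  -- countable dense pieces
  choose E hEc hE1 hE2 using fun k => exists_dense_io (G := G) (A k ∩ op D '' range tw)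
  obtain ⟨E0, hE0c, hE01, hE02⟩ := exists_dense_io (G := G) (op D '' range tw)
  let PH : (k : ℕ) → Fin (n k + 1) → Set PP := fun k i => {w | w ∈ E k ∧ op D w ∉ V k i}
  let RH : (k : ℕ) → Fin (n k + 1) → Set PP := fun k i => {w | w ∈ E k ∧ op D w ∉ U k i}
  let PH' : ℕ → ℕ → Set PP := fun k i => if h : i < n k + 1 then PH k ⟨i, h⟩ else ∅
  let RH' : ℕ → ℕ → Set PP := fun k i => if h : i < n k + 1 then RH k ⟨i, h⟩ else ∅
  let Hq : ℕ → Set PP := fun q => if q = 0 then E0 else
    if (q - 1) % 3 = 0 then E (Nat.unpair ((q - 1) / 3)).1 else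
    if (q - 1) % 3 = 1 then PH' (Nat.unpair ((q - 1) / 3)).1 (Nat.unpair ((q - 1) / 3)).2 else
      RH' (Nat.unpair ((q - 1) / 3)).1 (Nat.unpair ((q - 1) / 3)).2
  have hHq0 : Hq 0 = E0 := by simp only [Hq, if_true]
  have hHq1 : ∀ k i, Hq (3 * Nat.pair k i + 1) = E k := by
    intro k i
    have e1 : (3 * Nat.pair k i + 1 - 1) / 3 = Nat.pair k i := by omega
    have e2 : (3 * Nat.pair k i + 1 - 1) % 3 = 0 := by omega
    simp only [Hq]
    rw [if_neg (by omega), if_pos e2, e1, Nat.unpair_pair]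
  have hHq2 : ∀ k (i : Fin (n k + 1)), Hq (3 * Nat.pair k i.1 + 2) = PH k i := by
    intro k i
    have e1 : (3 * Nat.pair k i.1 + 2 - 1) / 3 = Nat.pair k i.1 := by omega
    have e2 : (3 * Nat.pair k i.1 + 2 - 1) % 3 = 1 := by omega
    simp only [Hq]
    rw [if_neg (by omega), if_neg (by omega), if_pos e2, e1, Nat.unpair_pair]
    simp only [PH']
    rw [dif_pos i.2]
  have hHq3 : ∀ k (i : Fin (n k + 1)), Hq (3 * Nat.pair k i.1 + 3) = RH k i := by
    intro k i
    have e1 : (3 * Nat.pair k i.1 + 3 - 1) / 3 = Nat.pair k i.1 := by omega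
    have e2 : (3 * Nat.pair k i.1 + 3 - 1) % 3 = 2 := by omega
    simp only [Hq]
    rw [if_neg (by omega), if_neg (by omega), if_neg (by omega), e1, Nat.unpair_pair]
    simp only [RH']
    rw [dif_pos i.2]
  have hHqc : ∀ q, (Hq q).Countable := by
    intro q
    simp only [Hq, PH', RH']
    split_ifs
    · exact hE0c
    · exact hEc _
    · exact (hEc _).mono fun w hw => hw.1
    · exact countable_empty
    · exact (hEc _).mono fun w hw => hw.1
    · exact countable_empty
  obtain ⟨t, ht1, ht2⟩ := exists_task Hq hHqc (fun a b => (a = 0 ∧ b = 1) ∨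
    ∃ k i, i < n k + 1 ∧ a = 3 * Nat.pair k i + 2 ∧
      (b = 3 * Nat.pair k i + 3 ∨ b = 3 * Nat.pair k i + 4))
  -- the closures
  let M : ℕ → Set (PP × Z) := fun k => closure (G.io '' E k)
  let P : (k : ℕ) → Fin (n k + 1) → Set (PP × Z) := fun k i => closure (G.io '' PH k i)
  let R : (k : ℕ) → Fin (n k + 1) → Set (PP × Z) := fun k i => closure (G.io '' RH k i)
  have hMPR : ∀ k i, M k = P k i ∪ R k i := by
    intro k i
    show closure _ = closure _ ∪ closure _
    rw [← closure_union, ← image_union]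
    congr 2
    ext w
    constructor
    · intro hw
      by_cases h : op D w ∈ V k i
      · right
        refine ⟨hw, fun hU' => ?_⟩
        exact hUV k i _ (hE1 k w hw).1 hU' h
      · exact Or.inl ⟨hw, h⟩
    · rintro (h | h)
      · exact h.1
      · exact h.1
  have hPle : ∀ k (i : Fin (n k + 1)), ∀ v ∈ P k i, co (Nat.pair k i.1) v.2 ≤ 2 / 3 := by
    intro k i v hv
    have hcl : IsClosed {v : PP × Z | co (Nat.pair k i.1) v.2 ≤ 2 / 3} :=
      isClosed_le ((hco _).comp continuous_snd) continuous_const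
    refine hcl.closure_subset_iff.2 ?_ hv
    rintro _ ⟨w, hw, rfl⟩
    show co (Nat.pair k i.1) (G.F w.1 w.2) ≤ 2 / 3
    by_contra hc
    exact hw.2 (hVup k i (op D w) (hE1 k w hw.1).1 (not_le.1 hc).le)
  have hRge : ∀ k (i : Fin (n k + 1)), ∀ v ∈ R k i, 1 / 3 ≤ co (Nat.pair k i.1) v.2 := by
    intro k i v hv
    have hcl : IsClosed {v : PP × Z | 1 / 3 ≤ co (Nat.pair k i.1) v.2} :=
      isClosed_le continuous_const ((hco _).comp continuous_snd)
    refine hcl.closure_subset_iff.2 ?_ hv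
    rintro _ ⟨w, hw, rfl⟩
    show 1 / 3 ≤ co (Nat.pair k i.1) (G.F w.1 w.2)
    by_contra hc
    exact hw.2 (hUlow k i (op D w) (hE1 k w hw.1).1 (not_le.1 hc).le)
  let B : ℕ → Set (PP × Z) := fun k => {v | v ∈ M k ∧ ∃ i, v ∉ P k i ∨ v ∉ R k i}
  -- the separators
  have hsep : ∀ j : ℕ, ∃ O1 O2 : Set (PP × Z), IsOpen O1 ∧ IsOpen O2 ∧ Disjoint O1 O2 ∧
      (∀ v, co j v.2 = 0 → v ∈ O1) ∧ (∀ v, co j v.2 = 1 → v ∈ O2) ∧
      ∀ k (i : Fin (n k + 1)), j = Nat.pair k i.1 → B k \ R k i ⊆ O1 ∧ B k \ P k i ⊆ O2 := by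
    intro j
    by_cases hj : (Nat.unpair j).2 < n (Nat.unpair j).1 + 1
    · obtain ⟨k, i, hki⟩ : ∃ k, ∃ i : Fin (n k + 1), j = Nat.pair k i.1 :=
        ⟨(Nat.unpair j).1, ⟨(Nat.unpair j).2, hj⟩, (Nat.pair_unpair j).symm⟩
      subst hki
      have hBR : B k \ R k i ⊆ P k i := by
        rintro v ⟨⟨hvM, _⟩, hvR⟩
        rw [hMPR k i] at hvM
        exact hvM.resolve_right hvR
      have hBP : B k \ P k i ⊆ R k i := by
        rintro v ⟨⟨hvM, _⟩, hvP⟩
        rw [hMPR k i] at hvM
        exact hvM.resolve_left hvP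
      have hz0 : IsClosed {v : PP × Z | co (Nat.pair k i.1) v.2 = 0} :=
        isClosed_eq ((hco _).comp continuous_snd) continuous_const
      have hz1 : IsClosed {v : PP × Z | co (Nat.pair k i.1) v.2 = 1} :=
        isClosed_eq ((hco _).comp continuous_snd) continuous_const
      have hPcl : IsClosed (P k i) := isClosed_closure
      have hRcl : IsClosed (R k i) := isClosed_closure
      have c1 : closure ({v : PP × Z | co (Nat.pair k i.1) v.2 = 0} ∪ (B k \ R k i)) ⊆
          {v : PP × Z | co (Nat.pair k i.1) v.2 = 0} ∪ P k i :=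
        (hz0.union hPcl).closure_subset_iff.2 (union_subset_union_right _ hBR)
      have c2 : closure ({v : PP × Z | co (Nat.pair k i.1) v.2 = 1} ∪ (B k \ P k i)) ⊆
          {v : PP × Z | co (Nat.pair k i.1) v.2 = 1} ∪ R k i :=
        (hz1.union hRcl).closure_subset_iff.2 (union_subset_union_right _ hBP)
      obtain ⟨O1, O2, h1, h2, h3, h4, h5⟩ := exists_sep
        (S1 := {v : PP × Z | co (Nat.pair k i.1) v.2 = 0} ∪ (B k \ R k i))
        (S2 := {v : PP × Z | co (Nat.pair k i.1) v.2 = 1} ∪ (B k \ P k i)) (by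
          rw [disjoint_left]
          intro v hv hv2
          rcases c1 hv with h | h
          · have h' : co (Nat.pair k i.1) v.2 = 0 := h
            rcases hv2 with h2 | h2
            · have h2' : co (Nat.pair k i.1) v.2 = 1 := h2
              linarith
            · have := hRge k i v (hBP h2)
              linarith
          · rcases hv2 with h2 | h2
            · have h2' : co (Nat.pair k i.1) v.2 = 1 := h2
              have := hPle k i v h
              linarith
            · exact h2.2 h) (by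
          rw [disjoint_left]
          intro v hv2 hv
          rcases c2 hv with h | h
          · have h' : co (Nat.pair k i.1) v.2 = 1 := h
            rcases hv2 with h2 | h2
            · have h2' : co (Nat.pair k i.1) v.2 = 0 := h2
              linarith
            · have := hPle k i v (hBR h2)
              linarith
          · rcases hv2 with h2 | h2
            · have h2' : co (Nat.pair k i.1) v.2 = 0 := h2
              have := hRge k i v h
              linarith
            · exact h2.2 h)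
      refine ⟨O1, O2, h1, h2, h5, fun v hv => h3 (Or.inl hv), fun v hv => h4 (Or.inl hv), ?_⟩
      intro k' i' hk'
      have hk : k = k' ∧ i.1 = i'.1 := Nat.pair_eq_pair.1 hk'
      obtain ⟨rfl, hi⟩ := hk
      have hi' : i = i' := Fin.ext hi
      subst hi'
      exact ⟨fun v hv => h3 (Or.inr hv), fun v hv => h4 (Or.inr hv)⟩
    · refine ⟨{v | co j v.2 < 1 / 2}, {v | 1 / 2 < co j v.2},
        isOpen_lt ((hco _).comp continuous_snd) continuous_const,
        isOpen_lt continuous_const ((hco _).comp continuous_snd), ?_, ?_, ?_, ?_⟩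
      · rw [disjoint_left]
        intro v h1 h2
        have h1' : co j v.2 < 1 / 2 := h1
        have h2' : 1 / 2 < co j v.2 := h2
        linarith
      · intro v hv
        show co j v.2 < 1 / 2
        rw [hv]; norm_num
      · intro v hv
        show 1 / 2 < co j v.2
        rw [hv]; norm_num
      · intro k i hk
        exfalso
        apply hj
        rw [hk, Nat.unpair_pair]
        exact i.2
  choose O1 O2 hO1 hO2 hO12 hz hone hB using hsep
  let L : Set (C × Z) := {p | ∀ j, (tw p.1, p.2) ∉ O1 j ∧ (tw p.1, p.2) ∉ O2 j}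
  have htwc : Continuous (fun p : C × Z => ((tw p.1, p.2) : PP × Z)) := by
    unfold tw; fun_prop
  have hL : IsClosed L := by
    have : L = ⋂ j, (fun p : C × Z => ((tw p.1, p.2) : PP × Z)) ⁻¹' (O1 j ∪ O2 j)ᶜ := by
      ext p
      simp [L]
    rw [this]
    exact isClosed_iInter fun j => ((hO1 j).union (hO2 j)).isClosed_compl.preimage htwc
  have hLf : ∀ x, ∃ z, (x, z) ∈ L := by
    intro x
    have hcx : Continuous (fun z : Z => ((tw x, z) : PP × Z)) := by fun_prop
    obtain ⟨z, hz'⟩ := hess (fun j => (fun z : Z => ((tw x, z) : PP × Z)) ⁻¹' O1 j)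
      (fun j => (fun z : Z => ((tw x, z) : PP × Z)) ⁻¹' O2 j)
      (fun j => (hO1 j).preimage hcx) (fun j => (hO2 j).preimage hcx)
      (fun j => (hO12 j).preimage _) (fun j z h => hz j (tw x, z) h) (fun j z h => hone j (tw x, z) h)
    exact ⟨z, fun j => hz' j⟩
  obtain ⟨e, he, heL⟩ := hit L hL hLf
  -- the key property of the points of `L`
  have hkey : ∀ x, (x, G.f x) ∈ L → ∀ k, G.io (tw x) ∈ M k → ∀ i,
      G.io (tw x) ∈ P k i ∧ G.io (tw x) ∈ R k i := by
    intro x hx k hxM i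
    rw [io_tw] at hxM ⊢
    by_contra hc
    have hBk : (tw x, G.f x) ∈ B k := by
      refine ⟨hxM, i, ?_⟩
      by_contra hcc
      push Not at hcc
      exact hc hcc
    by_cases hP : (tw x, G.f x) ∈ P k i
    · have hR : (tw x, G.f x) ∉ R k i := fun h => hc ⟨hP, h⟩
      exact (hx (Nat.pair k i.1)).1 ((hB (Nat.pair k i.1) k i rfl).1 ⟨hBk, hR⟩)
    · exact (hx (Nat.pair k i.1)).2 ((hB (Nat.pair k i.1) k i rfl).2 ⟨hBk, hP⟩)
  have hgood : Good G t := by
    refine ⟨?_, ?_⟩
    · apply big_of_inj (fun s => tw (e s))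
      · intro s a b hab ha
        rw [ht2] at hab
        rcases hab with ⟨_, rfl⟩ | ⟨k, i, hi, rfl, hb⟩
        · show G.io (tw (e s)) ∈ closure (G.io '' hs t 0)
          rw [ht1, hHq0]
          exact hE02 _ ⟨tw (e s), ⟨e s, rfl⟩, rfl⟩
        · have ha' : G.io (tw (e s)) ∈ closure (G.io '' hs t (3 * Nat.pair k i + 1)) := ha
          rw [ht1, hHq1] at ha'
          obtain ⟨h1, h2⟩ := hkey (e s) (heL s) k ha' ⟨i, hi⟩
          rcases hb with rfl | rfl
          · show G.io (tw (e s)) ∈ closure (G.io '' hs t (3 * Nat.pair k i + 2))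
            rw [ht1, hHq2 k ⟨i, hi⟩]
            exact h1
          · show G.io (tw (e s)) ∈ closure (G.io '' hs t (3 * Nat.pair k i + 3))
            rw [ht1, hHq3 k ⟨i, hi⟩]
            exact h2
      · intro s s' hss
        exact he (congrArg Prod.fst hss)
      · intro s s' hss
        exact he (congrArg Prod.fst hss)
    · rw [ht2]; exact Or.inl ⟨rfl, rfl⟩
  obtain ⟨w, hw, hw2⟩ := hD t hgood
  have hw0 : G.io w ∈ closure (G.io '' E0) := by
    have : G.io w ∈ closure (G.io '' hs t 0) :=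
      hw 0 1 (by rw [ht2]; exact Or.inl ⟨rfl, rfl⟩) trivial
    rwa [ht1, hHq0] at this
  have hwr : w ∈ range tw := by
    have h1 : w ∈ closure (range tw) := by
      have h2 := map_mem_closure (continuous_fst (X := PP) (Y := Z)) hw0 (t := range tw) (by
        rintro _ ⟨v, hv, rfl⟩
        obtain ⟨v', hv', hvv⟩ := hE01 v hv
        rw [show (G.io v).1 = v from rfl, show v = v' from hvv.symm]
        exact hv')
      exact h2
    rwa [isClosed_range_tw.closure_eq] at h1
  have hwA : op D w ∈ ⋃ k, A k := by rw [hA]; trivial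
  obtain ⟨k, hk⟩ := mem_iUnion.1 hwA
  have hwM : G.io w ∈ closure (G.io '' E k) := hE2 k w ⟨hk, w, hwr, rfl⟩
  obtain ⟨i, hi⟩ := hcov k (op D w) hk
  have hwP : G.io w ∈ closure (G.io '' hs t (3 * Nat.pair k i.1 + 2)) :=
    hw (3 * Nat.pair k i.1 + 2) (3 * Nat.pair k i.1 + 3)
      (by rw [ht2]; exact Or.inr ⟨k, i.1, i.2, rfl, Or.inl rfl⟩)
      (by show G.io w ∈ closure (G.io '' hs t (3 * Nat.pair k i.1 + 1)); rw [ht1, hHq1]; exact hwM)
  have hwR : G.io w ∈ closure (G.io '' hs t (3 * Nat.pair k i.1 + 3)) :=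
    hw (3 * Nat.pair k i.1 + 2) (3 * Nat.pair k i.1 + 4)
      (by rw [ht2]; exact Or.inr ⟨k, i.1, i.2, rfl, Or.inr rfl⟩)
      (by show G.io w ∈ closure (G.io '' hs t (3 * Nat.pair k i.1 + 1)); rw [ht1, hHq1]; exact hwM)
  have hcP := hw2 _ hwP
  have hcR := hw2 _ hwR
  rw [ht1, hHq2] at hcP
  rw [ht1, hHq3] at hcR
  rcases hi with hi | hi
  · obtain ⟨v, hv1, w', hw', rfl⟩ := mem_closure_iff.1 hcR (U k i) (hU k i) hi
    exact hw'.2 hv1
  · obtain ⟨v, hv1, w', hw', rfl⟩ := mem_closure_iff.1 hcP (V k i) (hV k i) hi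
    exact hw'.2 hv1

end Pool.Agent.P8H81.DD
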