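import Mathlib
import Pool.Agent.Helper520.CD.Core1
import Pool.Agent.P8H81.DD.Nc

set_option autoImplicit false

/-!
The final space.
-/

namespace Pool.Agent.P8H81.DD

open Set TopologicalSpace Filter Topology

/-- The coordinates of the Hilbert cube. -/
def coQ (i : ℕ) (z : Q) : ℝ := (z i : ℝ)

theorem essential (O1 O2 : ℕ → Set Q) (h1 : ∀ i, IsOpen (O1 i)) (h2 : ∀ i, IsOpen (O2 i))
    (h12 : ∀ i, Disjoint (O1 i) (O2 i)) (hz : ∀ i z, coQ i z = 0 → z ∈ O1 i)
    (ho : ∀ i z, coQ i z = 1 → z ∈ O2 i) : ∃ z, ∀ i, z ∉ O1 i ∧ z ∉ O2 i := by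
  have hfin : (⋂ i, (O1 i ∪ O2 i)ᶜ).Nonempty := by
    apply CompactSpace.iInter_nonempty (fun i => ((h1 i).union (h2 i)).isClosed_compl)
    intro S
    obtain ⟨x, _, hx⟩ := Helper520.CD.partitions_meet S O1 (fun l _ => h1 l)
      (fun l _ x hx => hz l x (by show (x l : ℝ) = 0; rw [hx]; simp))
      (fun l _ x hx hx1 => by
        have h3 : x ∈ O2 l := ho l x (by show (x l : ℝ) = 1; rw [hx1]; simp)
        exact disjoint_left.1 ((h12 l).closure_left (h2 l)) hx h3)
    refine ⟨x, ?_⟩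
    simp only [mem_iInter]
    intro i hi hc
    have hfr := hx i hi
    rw [(h1 i).frontier_eq] at hfr
    rcases hc with hc | hc
    · exact hfr.2 hc
    · exact disjoint_left.1 ((h12 i).closure_left (h2 i)) hfr.1 hc
  obtain ⟨z, hz⟩ := hfin
  refine ⟨z, fun i => ?_⟩
  have := mem_iInter.1 hz i
  exact ⟨fun h => this (Or.inl h), fun h => this (Or.inr h)⟩

theorem t35_of_captures {Z : Type} [MetricSpace Z] [SecondCountableTopology Z] {G : Gf Z}
    {D : Dat G} (hD : Captures D) : T35Space (Y D) := by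
  have hN : NormalSpace (Y D) := by
    constructor
    intro H K hH hK hHK
    let U : Fin 2 → Set (Y D) := fun i => if i = 0 then Kᶜ else Hᶜ
    have hU : ∀ i, IsOpen (U i) := by
      intro i
      by_cases hi : i = 0
      · simp only [U, if_pos hi]; exact hK.isOpen_compl
      · simp only [U, if_neg hi]; exact hH.isOpen_compl
    have hUc : ⋃ i, U i = univ := by
      rw [eq_univ_iff_forall]
      intro x
      by_cases hx : x ∈ K
      · refine mem_iUnion.2 ⟨1, ?_⟩
        simp only [U]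
        rw [if_neg (by decide)]
        exact fun h => disjoint_left.1 hHK h hx
      · refine mem_iUnion.2 ⟨0, ?_⟩
        simp only [U, if_true]
        exact hx
    obtain ⟨V, hV1, hV2, hV3, hV4⟩ := clopen_partition hD U hU hUc
    refine ⟨V 0, V 1, (hV1 0).isOpen, (hV1 1).isOpen, ?_, ?_, hV4 0 1 (by decide)⟩
    · intro x hx
      have : x ∈ ⋃ i, V i := by rw [hV3]; trivial
      obtain ⟨i, hi⟩ := mem_iUnion.1 this
      fin_cases i
      · exact hi
      · exfalso
        have h3 := hV2 1 hi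
        simp only [U] at h3
        rw [if_neg (by decide)] at h3
        exact h3 hx
    · intro x hx
      have : x ∈ ⋃ i, V i := by rw [hV3]; trivial
      obtain ⟨i, hi⟩ := mem_iUnion.1 this
      fin_cases i
      · exfalso
        have h3 := hV2 0 hi
        simp only [U, if_true] at h3
        exact h3 hx
      · exact hi
  have : T4Space (Y D) := {}
  infer_instance

theorem dim_zero {Z : Type} [MetricSpace Z] {G : Gf Z} {D : Dat G} (hD : Captures D)
    (m : ℕ) (U : Fin m → Set (Y D))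
    (hU : ∀ i, ∃ f : Y D → ℝ, Continuous f ∧ U i = {x | f x ≠ 0}) (hc : (⋃ i, U i) = univ) :
    ∃ (k : ℕ) (V : Fin k → Set (Y D)),
        (∀ j, ∃ f : Y D → ℝ, Continuous f ∧ V j = {x | f x ≠ 0}) ∧
        (⋃ j, V j) = univ ∧ (∀ j, ∃ i, V j ⊆ U i) ∧
        ∀ x, {j : Fin k | x ∈ V j}.ncard ≤ 1 := by
  classical
  obtain ⟨V, hV1, hV2, hV3, hV4⟩ := clopen_partition hD U (fun i => by
    obtain ⟨f, hf, hfU⟩ := hU i
    rw [hfU]
    exact isOpen_ne_fun hf continuous_const) hc
  refine ⟨m, V, ?_, hV3, fun j => ⟨j, hV2 j⟩, ?_⟩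
  · intro j
    refine ⟨(V j).indicator (fun _ => (1 : ℝ)), ?_, ?_⟩
    · exact (hV1 j).continuous_indicator continuous_const
    · ext x
      by_cases hx : x ∈ V j
      · simp [hx]
      · simp [hx]
  · intro x
    have : {j : Fin m | x ∈ V j}.Subsingleton := by
      intro a ha b hb
      by_contra hab
      exact disjoint_left.1 (hV4 a b hab) ha hb
    exact (Set.ncard_le_one (Set.toFinite _)).2 fun a ha b hb => this ha hb

theorem main : ∃ (X : Type) (_ : TopologicalSpace X), T35Space X ∧ NormalSpace (X × X) ∧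
    (∀ (m : ℕ) (U : Fin m → Set X),
      (∀ i, ∃ f : X → ℝ, Continuous f ∧ U i = {x | f x ≠ 0}) →
      (⋃ i, U i) = Set.univ →
      ∃ (k : ℕ) (V : Fin k → Set X),
        (∀ j, ∃ f : X → ℝ, Continuous f ∧ V j = {x | f x ≠ 0}) ∧
        (⋃ j, V j) = Set.univ ∧
        (∀ j, ∃ i, V j ⊆ U i) ∧
        ∀ x, {j : Fin k | x ∈ V j}.ncard ≤ 1) ∧
    ¬ ∃ A : ℕ → Set (X × X), (⋃ k, A k) = Set.univ ∧ ∀ k, ∃ n : ℕ, DimLe (A k) n := by
  let _ : MetricSpace Q := metrizableSpaceMetric Q
  obtain ⟨g, f, hagree, hlim, hit⟩ := exists_graph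
  let G : Gf Q := ⟨g, f, hagree, hlim⟩
  obtain ⟨D, hD⟩ := exists_space G
  have hD' : Captures D := hD
  refine ⟨Y D, inferInstance, t35_of_captures hD', normal_sq hD', dim_zero hD', ?_⟩
  apply not_countable_dim hD' coQ
  · intro i
    exact continuous_subtype_val.comp (continuous_apply i)
  · exact essential
  · exact hit

end Pool.Agent.P8H81.DD
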